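import Pool.Agent.Lib.MP_fe4d92_an.Segment

/-!
Lower bound for the capacity of sets that contain a segment.
-/

namespace Pool.Agent.Lib.MP_fe4d92_an

open MeasureTheory Set Filter Topology Metric InnerProductSpace Laplacian
open scoped ENNReal ContDiff
open Pool.Agent.Lib.MP_9aae89_an

/-- The multiple of arc length on a segment, as a functional. -/
noncomputable def segT (A : ℝ) (a : E) (ℓ : ℝ) (g : E → ℝ) : ℝ :=
  A * ∫ s in Icc (0:ℝ) 1, g (a + (ℓ * s) • e0)

/-- The segment. -/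
def seg (a : E) (ℓ : ℝ) : Set E := (fun s : ℝ => a + (ℓ * s) • e0) '' Icc (0:ℝ) 1

lemma isCompact_seg (a : E) (ℓ : ℝ) : IsCompact (seg a ℓ) :=
  isCompact_Icc.image (by fun_prop)

lemma intOn_seg {g : E → ℝ} (hg : Continuous g) (a : E) (ℓ : ℝ) :
    IntegrableOn (fun s : ℝ => g (a + (ℓ * s) • e0)) (Icc (0:ℝ) 1) volume := by
  have : Continuous (fun s : ℝ => g (a + (ℓ * s) • e0)) := by fun_prop
  exact this.continuousOn.integrableOn_compact isCompact_Icc

lemma segT_dist (A : ℝ) (a : E) (ℓ : ℝ) : IsDistributionOn (segT A a ℓ) (seg a ℓ) := by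
  refine ⟨isCompact_seg a ℓ, ?_, ?_, ?_, ?_⟩
  · intro f g hf hg
    unfold segT
    rw [integral_add (intOn_seg hf.continuous a ℓ) (intOn_seg hg.continuous a ℓ)]
    ring
  · intro c f _
    unfold segT
    rw [integral_const_mul]
    ring
  · refine ⟨0, |A|, seg a ℓ, isCompact_seg a ℓ, fun f _ B hB => ?_⟩
    unfold segT
    rw [abs_mul]
    refine mul_le_mul_of_nonneg_left ?_ (abs_nonneg _)
    have h1 : ∀ s ∈ Icc (0:ℝ) 1, ‖f (a + (ℓ * s) • e0)‖ ≤ B := by
      intro s hs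
      have h2 := hB 0 le_rfl (a + (ℓ * s) • e0) ⟨s, hs, rfl⟩
      rwa [norm_iteratedFDeriv_zero] at h2
    have h3 := norm_setIntegral_le_of_norm_le_const (μ := (volume : Measure ℝ)) (s := Icc (0:ℝ) 1)
      (by simp) h1
    simpa using h3
  · rintro f _ ⟨V, -, hV, hf⟩
    unfold segT
    have h1 : ∫ s in Icc (0:ℝ) 1, f (a + (ℓ * s) • e0) = ∫ s in Icc (0:ℝ) 1, (0:ℝ) := by
      refine setIntegral_congr_fun measurableSet_Icc fun s hs => ?_
      exact hf _ (hV ⟨s, hs, rfl⟩)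
    rw [h1]
    simp

lemma Phi_neg (x : E) : Phi (-x) = Phi x := by
  unfold Phi
  rw [norm_neg]

lemma Phi_bound (z : E) (hz : z ≠ 0) : ‖Phi z‖ ≤ 1 * WW z := by
  rw [Phi_eq, norm_mul]
  have h1 := norm_kd_zero_le hz
  have h2 : ‖-(4 * Real.pi)⁻¹‖ ≤ 1 := by
    rw [norm_neg, Real.norm_of_nonneg (by positivity)]
    apply inv_le_one_of_one_le₀
    have := Real.pi_gt_three
    linarith
  calc ‖-(4 * Real.pi)⁻¹‖ * ‖kd 0 z‖ ≤ 1 * ‖kd 0 z‖ := mul_le_mul_of_nonneg_right h2 (norm_nonneg _)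
    _ ≤ 1 * WW z := by rw [one_mul]; exact h1

/-- The potential of the segment functional. -/
lemma segT_potential (A : ℝ) (a : E) (ℓ : ℝ) :
    IsPotential (segT A a ℓ) (fun y => A * ∫ s in Icc (0:ℝ) 1, Phi (y - (a + (ℓ * s) • e0))) := by
  intro ψ hψ hc
  obtain ⟨R, hR⟩ := hc.isCompact.isBounded.subset_closedBall 0
  obtain ⟨M, hM⟩ := good_ball R
  obtain ⟨C, hC⟩ := hc.exists_bound_of_continuous hψ.continuous
  have hdens : Dens (closedBall (0 : E3) R) ψ C := by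
    refine ⟨hψ.continuous.aestronglyMeasurable, hC, fun Y hY => ?_⟩
    exact image_eq_zero_of_notMem_tsupport fun h => hY (hR h)
  have hPm : StronglyMeasurable Phi := measurable_Phi.stronglyMeasurable
  set F : ℝ → E → ℝ := fun s y => Phi (a + (ℓ * s) • e0 - y) * ψ y with hF
  have hmeas : AEStronglyMeasurable (Function.uncurry F)
      ((volume.restrict (Icc (0:ℝ) 1)).prod (volume : Measure E)) := by
    apply Measurable.aestronglyMeasurable
    have h1 : Measurable (fun p : ℝ × E => Phi (a + (ℓ * p.1) • e0 - p.2)) :=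
      measurable_Phi.comp (by fun_prop)
    have h2 : Measurable (fun p : ℝ × E => ψ p.2) := hψ.continuous.measurable.comp measurable_snd
    exact h1.mul h2
  have hint : Integrable (Function.uncurry F)
      ((volume.restrict (Icc (0:ℝ) 1)).prod (volume : Measure E)) := by
    rw [integrable_prod_iff hmeas]
    have h3 : ∀ z : E, Integrable (fun y => Phi (z - y) * ψ y) volume := by
      intro z
      have := integrable_integrand hM hPm zero_le_one Phi_bound hdens z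
      refine this.congr (Eventually.of_forall fun y => ?_)
      simp only [smul_eq_mul]
      ring
    have h4 : ∀ z : E, ∫ y, ‖Phi (z - y) * ψ y‖ ≤ C * 1 * M := by
      intro z
      calc ∫ y, ‖Phi (z - y) * ψ y‖ ≤ ∫ y, dom (closedBall (0 : E3) R) (C * 1) z y := by
            refine integral_mono_ae (h3 z).norm (dom_integrable hM (C * 1) z) ?_
            filter_upwards [ae_ne_E3 z] with Y hY
            have h5 := norm_le_dom (κ := Phi) (X := z) (X' := z) (Y := Y) hdens zero_le_one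
              (fun _ => Phi_bound _ (sub_ne_zero.mpr (Ne.symm hY)))
            rw [smul_eq_mul, mul_comm] at h5
            exact h5
        _ ≤ _ := integral_dom_le hM (mul_nonneg hdens.nonneg zero_le_one) z
    refine ⟨Eventually.of_forall fun s => h3 (a + (ℓ * s) • e0), ?_⟩
    have hm2 : AEStronglyMeasurable (fun s : ℝ => ∫ y, ‖Function.uncurry F (s, y)‖)
        (volume.restrict (Icc (0:ℝ) 1)) := hmeas.norm.integral_prod_right'
    have hfm : IsFiniteMeasure ((volume : Measure ℝ).restrict (Icc (0:ℝ) 1)) :=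
      ⟨by simp⟩
    have hcst : Integrable (fun _ : ℝ => C * 1 * M) ((volume : Measure ℝ).restrict (Icc (0:ℝ) 1)) :=
      integrable_const _
    refine hcst.mono' hm2 (Eventually.of_forall fun s => ?_)
    rw [Real.norm_of_nonneg (integral_nonneg fun y => norm_nonneg _)]
    exact h4 (a + (ℓ * s) • e0)
  unfold segT
  have h6 : ∫ s in Icc (0:ℝ) 1, ∫ y, F s y = ∫ y, ∫ s in Icc (0:ℝ) 1, F s y :=
    integral_integral_swap hint
  have h7 : ∀ y, (A * ∫ s in Icc (0:ℝ) 1, Phi (y - (a + (ℓ * s) • e0))) * ψ y =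
      A * ∫ s in Icc (0:ℝ) 1, F s y := by
    intro y
    have h8 : ∀ s, F s y = Phi (y - (a + (ℓ * s) • e0)) * ψ y := by
      intro s
      simp only [hF]
      rw [← Phi_neg (a + (ℓ * s) • e0 - y), neg_sub]
    simp_rw [h8]
    rw [integral_mul_const]
    ring
  simp_rw [h7]
  rw [integral_const_mul, ← h6]

lemma Phi_smul {ℓ : ℝ} (hℓ : 0 < ℓ) (x : E) : Phi (ℓ • x) = ℓ⁻¹ * Phi x := by
  unfold Phi
  rw [norm_smul, Real.norm_of_nonneg hℓ.le]
  rw [show 4 * Real.pi * (ℓ * ‖x‖) = ℓ * (4 * Real.pi * ‖x‖) by ring, mul_inv]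
  ring

lemma lintegral_affine3 (G : E → ℝ≥0∞) (hG : Measurable G) {ℓ : ℝ} (hℓ : 0 < ℓ) (a : E) :
    ∫⁻ y, G (ℓ⁻¹ • (y - a)) = ENNReal.ofReal (ℓ ^ 3) * ∫⁻ y, G y := by
  have h1 : ∫⁻ y, G (ℓ⁻¹ • (y - a)) = ∫⁻ y, G (ℓ⁻¹ • y) :=
    lintegral_sub_right_eq_self (fun y => G (ℓ⁻¹ • y)) a
  rw [h1]
  have h2 : ∫⁻ y, G (ℓ⁻¹ • y) = ∫⁻ y, G y ∂(Measure.map (ℓ⁻¹ • ·) (volume : Measure E)) := by
    rw [lintegral_map hG (by fun_prop)]
  rw [h2, Measure.map_addHaar_smul _ (inv_ne_zero hℓ.ne'), lintegral_smul_measure]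
  have hd : Module.finrank ℝ E = 3 := by simp
  rw [hd, smul_eq_mul]
  congr 2
  rw [inv_pow, inv_inv, abs_of_pos (by positivity)]

/-- **Lower bound.** A set containing a segment of length `ℓ` parallel to the first axis has
capacity at least `κ ℓ ^ (1 - 3 / q)`. -/
theorem cap_segment {q : ℝ} (hq : 3 < q) : ∃ κ : ℝ, 0 < κ ∧ ∀ (a : E) (ℓ : ℝ), 0 < ℓ →
    ∀ σ : Set E, seg a ℓ ⊆ σ →
      ENNReal.ofReal (κ * ℓ ^ (1 - 3 / q)) ≤ cap (ENNReal.ofReal q) σ := by
  have hq0 : 0 < q := by linarith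
  set N : ℝ := (∫⁻ x, ‖U1 x‖ₑ ^ q).toReal + 1 with hN
  have hNpos : 0 < N := by positivity
  have hNle : ∫⁻ x, ‖U1 x‖ₑ ^ q ≤ ENNReal.ofReal N := by
    rw [ENNReal.le_ofReal_iff_toReal_le (U1_finite hq).ne hNpos.le]
    linarith
  refine ⟨N ^ (-(1 / q)), by positivity, fun a ℓ hℓ σ hσ => ?_⟩
  set A : ℝ := N ^ (-(1 / q)) * ℓ ^ (1 - 3 / q) with hA
  have hApos : 0 < A := by positivity
  set u : E → ℝ := fun y => A * ∫ s in Icc (0:ℝ) 1, Phi (y - (a + (ℓ * s) • e0)) with hu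
  have hu1 : ∀ y, u y = (A * ℓ⁻¹) * U1 (ℓ⁻¹ • (y - a)) := by
    intro y
    have h1 : ∀ s : ℝ, Phi (y - (a + (ℓ * s) • e0)) = ℓ⁻¹ * Phi (ℓ⁻¹ • (y - a) - s • e0) := by
      intro s
      rw [← Phi_smul hℓ]
      congr 1
      rw [smul_sub, smul_smul, smul_smul, mul_inv_cancel₀ hℓ.ne', one_smul, sub_sub]
    simp only [hu, U1]
    simp_rw [h1]
    rw [integral_const_mul, ← mul_assoc]
  have hum : StronglyMeasurable u := by
    have : u = fun y => (A * ℓ⁻¹) * U1 (ℓ⁻¹ • (y - a)) := by ext1 y; exact hu1 y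
    rw [this]
    exact (stronglyMeasurable_U1.comp_measurable (by fun_prop)).const_mul _
  have hqne : ENNReal.ofReal q ≠ 0 := by simpa using hq0
  have hnorm : eLpNorm u (ENNReal.ofReal q) volume ≤ 1 := by
    rw [eLpNorm_eq_lintegral_rpow_enorm_toReal hqne ENNReal.ofReal_ne_top, ENNReal.toReal_ofReal hq0.le]
    have h1 : ∫⁻ x, ‖u x‖ₑ ^ q ≤ 1 := by
      have h2 : ∀ x, ‖u x‖ₑ ^ q = ENNReal.ofReal ((A * ℓ⁻¹) ^ q) * ‖U1 (ℓ⁻¹ • (x - a))‖ₑ ^ q := by
        intro x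
        rw [hu1 x, enorm_mul, ENNReal.mul_rpow_of_nonneg _ _ hq0.le, Real.enorm_eq_ofReal_abs,
          abs_of_pos (by positivity), ENNReal.ofReal_rpow_of_nonneg (by positivity) hq0.le]
      simp_rw [h2]
      rw [lintegral_const_mul' _ _ ENNReal.ofReal_ne_top]
      rw [lintegral_affine3 (fun x => ‖U1 x‖ₑ ^ q)
        ((stronglyMeasurable_U1.measurable.enorm).pow_const q) hℓ a]
      calc ENNReal.ofReal ((A * ℓ⁻¹) ^ q) * (ENNReal.ofReal (ℓ ^ 3) * ∫⁻ y, ‖U1 y‖ₑ ^ q)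
          ≤ ENNReal.ofReal ((A * ℓ⁻¹) ^ q) * (ENNReal.ofReal (ℓ ^ 3) * ENNReal.ofReal N) :=
            mul_le_mul' le_rfl (mul_le_mul' le_rfl hNle)
        _ = ENNReal.ofReal ((A * ℓ⁻¹) ^ q * (ℓ ^ 3 * N)) := by
            rw [← ENNReal.ofReal_mul (by positivity), ← ENNReal.ofReal_mul (by positivity)]
        _ = 1 := by
            rw [ENNReal.ofReal_eq_one]
            have h3 : A * ℓ⁻¹ = N ^ (-(1/q)) * ℓ ^ (-(3/q)) := by
              rw [hA, mul_assoc, ← Real.rpow_neg_one ℓ, ← Real.rpow_add hℓ]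
              congr 2; ring
            rw [h3, Real.mul_rpow (by positivity) (by positivity), ← Real.rpow_mul hNpos.le,
              ← Real.rpow_mul hℓ.le]
            have h4 : -(1 / q) * q = -1 := by field_simp
            have h5 : -(3 / q) * q = -3 := by field_simp
            rw [h4, h5, Real.rpow_neg_one, Real.rpow_neg hℓ.le]
            have h6 : ℓ ^ (3:ℝ) = ℓ ^ 3 := by
              rw [← Real.rpow_natCast]; norm_num
            rw [h6]
            field_simp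
    calc (∫⁻ x, ‖u x‖ₑ ^ q) ^ (1 / q) ≤ 1 ^ (1 / q) := ENNReal.rpow_le_rpow h1 (by positivity)
      _ = 1 := ENNReal.one_rpow _
  have hloc : LocLq (ENNReal.ofReal q) u := by
    intro M _
    refine ⟨hum.aestronglyMeasurable, ?_⟩
    exact lt_of_le_of_lt ((eLpNorm_mono_measure _ Measure.restrict_le_self).trans hnorm)
      ENNReal.one_lt_top
  have hT1 : segT A a ℓ (fun _ => 1) = A := by
    unfold segT
    simp
  unfold cap
  apply le_sSup
  refine ⟨segT A a ℓ, seg a ℓ, u, segT_dist A a ℓ, hσ, segT_potential A a ℓ, hloc, hnorm, ?_⟩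
  rw [hT1, abs_of_pos hApos]

end Pool.Agent.Lib.MP_fe4d92_an
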