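import Pool.Agent.Lib.MP_fe4d92_an.Green

/-!
Scaling of the Laplacian, and a Hölder-type bound.
-/

namespace Pool.Agent.Lib.MP_fe4d92_an

open MeasureTheory Set Filter Topology Metric InnerProductSpace Laplacian
open scoped ENNReal ContDiff

variable {F : Type*} [NormedAddCommGroup F] [InnerProductSpace ℝ F] [FiniteDimensional ℝ F]

omit [FiniteDimensional ℝ F] in
lemma fderiv_scale {f : F → ℝ} (hf : Differentiable ℝ f) (c : ℝ) (x y a : F) :
    fderiv ℝ (fun y => f (c • (y - x))) y a = c * fderiv ℝ f (c • (y - x)) a := by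
  have h1 : HasFDerivAt (fun y : F => c • (y - x)) (c • ContinuousLinearMap.id ℝ F) y :=
    ((hasFDerivAt_id y).sub_const x).const_smul c
  have h2 := (hf (c • (y - x))).hasFDerivAt.comp y h1
  have h3 : fderiv ℝ (fun y => f (c • (y - x))) y =
      (fderiv ℝ f (c • (y - x))).comp (c • ContinuousLinearMap.id ℝ F) := h2.fderiv
  rw [h3]
  simp

lemma laplacian_scale {f : F → ℝ} (hf : ContDiff ℝ 2 f) (c : ℝ) (x y : F) :
    Δ (fun y => f (c • (y - x))) y = c ^ 2 * Δ f (c • (y - x)) := by
  have h0 : ContDiff ℝ 2 (fun y => f (c • (y - x))) := hf.comp (by fun_prop)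
  rw [laplacian_eq_sum' h0.contDiffAt, laplacian_eq_sum' hf.contDiffAt, Finset.mul_sum]
  refine Finset.sum_congr rfl fun i _ => ?_
  set a := stdOrthonormalBasis ℝ F i
  have h1 : (fun y => fderiv ℝ (fun y => f (c • (y - x))) y a) =
      fun y => c * fderiv ℝ f (c • (y - x)) a := by
    ext1 z; exact fderiv_scale (hf.differentiable (by norm_num)) c x z a
  rw [h1]
  have h2 : Differentiable ℝ (fun z => fderiv ℝ f z a) := fun z =>
    (diffAt_fderiv hf.contDiffAt).clm_apply (differentiableAt_const _)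
  have h3 := fderiv_scale h2 c x y a
  have h4 : Differentiable ℝ (fun y => fderiv ℝ f (c • (y - x)) a) :=
    h2.comp (by fun_prop)
  rw [fderiv_const_mul (h4 y), smul_apply, h3, smul_eq_mul]
  ring

/-- Hölder bound for the integral over a small set. -/
lemma lintegral_le_of_small {α : Type*} [MeasurableSpace α] {μ : Measure α} {q : ℝ} (hq : 1 ≤ q)
    {A K : Set α} {w : α → ℝ} (hw : AEStronglyMeasurable w (μ.restrict K))
    (hA : MeasurableSet A) :
    ∫⁻ x in A, ‖w x‖ₑ ∂(μ.restrict K) ≤
      eLpNorm w (ENNReal.ofReal q) (μ.restrict K) * μ A ^ (1 - 1 / q) := by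
  have h1 : (1 : ℝ≥0∞) ≤ ENNReal.ofReal q := by
    rw [← ENNReal.ofReal_one]; exact ENNReal.ofReal_le_ofReal hq
  have h2 := eLpNorm_le_eLpNorm_mul_rpow_measure_univ (μ := (μ.restrict K).restrict A) h1
    (hw.mono_measure Measure.restrict_le_self)
  rw [eLpNorm_one_eq_lintegral_enorm] at h2
  refine h2.trans ?_
  have hq0 : 0 ≤ q := by linarith
  rw [ENNReal.toReal_ofReal hq0]
  simp only [ENNReal.toReal_one, div_one]
  refine mul_le_mul' (eLpNorm_mono_measure _ Measure.restrict_le_self) ?_
  refine ENNReal.rpow_le_rpow ?_ ?_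
  · rw [Measure.restrict_apply MeasurableSet.univ, univ_inter, Measure.restrict_apply hA]
    exact measure_mono inter_subset_left
  · have : 1 / q ≤ 1 := by
      rw [div_le_one (by linarith)]; exact hq
    linarith

end Pool.Agent.Lib.MP_fe4d92_an
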