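import Pool.Agent.Lib.MP_fe4d92_an.FundSol
import Pool.Agent.Lib.MP_fe4d92_an.Scale

/-!
Upper bound for the capacity `c̃` of subsets of balls.
-/

namespace Pool.Agent.Lib.MP_fe4d92_an

open MeasureTheory Set Filter Topology Metric InnerProductSpace Laplacian
open scoped ENNReal ContDiff

/-- A fixed cutoff function. -/
noncomputable def bump : ContDiffBump (0 : E) := ⟨1, 2, one_pos, one_lt_two⟩

lemma bump_smooth : ContDiff ℝ ∞ (bump : E → ℝ) := bump.contDiff

lemma exists_lap_bound : ∃ A : ℝ, 0 < A ∧ ∀ y, |Δ (bump : E → ℝ) y| ≤ A := by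
  have h1 : Continuous (fun y => Δ (bump : E → ℝ) y) := by
    have h2 : ∀ y, Δ (bump : E → ℝ) y = ∑ i, fderiv ℝ (fun y => fderiv ℝ (bump : E → ℝ) y
        (stdOrthonormalBasis ℝ E i)) y (stdOrthonormalBasis ℝ E i) := fun y =>
      laplacian_eq_sum' (bump_smooth.contDiffAt.of_le two_le_infty)
    simp_rw [h2]
    refine continuous_finset_sum _ fun i _ => ?_
    have h3 := (contOn_dir isOpen_univ (f := (bump : E → ℝ))
      (bump_smooth.of_le two_le_infty).contDiffOn (stdOrthonormalBasis ℝ E i)).2.1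
    exact continuousOn_univ.mp h3
  have h4 : HasCompactSupport (fun y => Δ (bump : E → ℝ) y) := by
    refine HasCompactSupport.intro (bump.hasCompactSupport.isCompact) fun y hy => ?_
    have h5 : (bump : E → ℝ) =ᶠ[𝓝 y] fun _ => (0:ℝ) := notMem_tsupport_iff_eventuallyEq.mp hy
    have h6 := laplacian_congr_nhds h5
    have h7 := h6.self_of_nhds
    rw [h7]
    simp
  obtain ⟨A, hA⟩ := h4.exists_bound_of_continuous h1
  exact ⟨|A| + 1, by positivity, fun y => (hA y).trans ((le_abs_self A).trans (by linarith))⟩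

lemma lap_zero_of_eventually {f : E → ℝ} {y : E} (h : ∀ᶠ z in 𝓝 y, f z = 0) : Δ f y = 0 := by
  have h5 : f =ᶠ[𝓝 y] fun _ => (0:ℝ) := h
  rw [(laplacian_congr_nhds h5).self_of_nhds]
  simp

theorem capTilde_le {q : ℝ} (hq : 3 < q) : ∃ C : ℝ, 0 < C ∧ ∀ (x : E) (δ : ℝ), 0 < δ →
    ∀ σ ⊆ ball x δ, capTilde (ENNReal.ofReal q) σ ≤ ENNReal.ofReal (C * δ ^ (1 - 3 / q)) := by
  obtain ⟨A, hA, hAb⟩ := exists_lap_bound
  have hq0 : 0 < q := by linarith
  set c : ℝ := 8 * (Real.pi * 4 / 3) with hc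
  have hcpos : 0 < c := by positivity
  refine ⟨A * c ^ (1 - 1 / q), by positivity, fun x δ hδ σ hσ => ?_⟩
  refine sSup_le ?_
  rintro _ ⟨T, L, u, hT, hL, hpot, hu, hn, rfl⟩
  -- the cutoff
  set χ : E → ℝ := fun y => bump (δ⁻¹ • (y - x)) with hχ
  have hχs : ContDiff ℝ ∞ χ := bump_smooth.comp (by fun_prop)
  have hsupp : ∀ y, y ∉ closedBall x (2 * δ) → χ y = 0 := by
    intro y hy
    apply bump.zero_of_le_dist
    rw [mem_closedBall, dist_eq_norm, not_le] at hy
    rw [dist_zero_right, norm_smul, Real.norm_of_nonneg (inv_nonneg.mpr hδ.le)]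
    have : (2:ℝ) ≤ δ⁻¹ * ‖y - x‖ := by
      rw [inv_mul_eq_div, le_div_iff₀ hδ]; exact hy.le
    exact this
  have hχc : HasCompactSupport χ := HasCompactSupport.intro (isCompact_closedBall x (2 * δ)) hsupp
  have hone : ∀ y ∈ ball x δ, χ y = 1 := by
    intro y hy
    apply bump.one_of_mem_closedBall
    rw [mem_ball, dist_eq_norm] at hy
    rw [mem_closedBall, dist_zero_right, norm_smul, Real.norm_of_nonneg (inv_nonneg.mpr hδ.le)]
    have : δ⁻¹ * ‖y - x‖ ≤ 1 := by
      rw [inv_mul_eq_div, div_le_one hδ]; exact hy.le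
    exact this
  have hT1 : T (fun _ => 1) = T χ := by
    have h1 : (fun _ : E => (1:ℝ)) = fun y => χ y + (1 - χ y) := by ext1 y; ring
    have h2 : ContDiff ℝ ∞ (fun y => 1 - χ y) := contDiff_const.sub hχs
    rw [h1, hT.map_add _ _ hχs h2]
    rw [hT.support _ h2 ⟨ball x δ, isOpen_ball, hL.trans hσ, fun y hy => by rw [hone y hy, sub_self]⟩,
      add_zero]
  have hLapS : ContDiff ℝ ∞ (Δ χ) := by
    have h2 : (Δ χ) = fun y => ∑ i, fderiv ℝ (fun y => fderiv ℝ χ y
        (stdOrthonormalBasis ℝ E i)) y (stdOrthonormalBasis ℝ E i) := by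
      ext1 y
      exact laplacian_eq_sum' (hχs.contDiffAt.of_le two_le_infty)
    rw [h2]
    refine ContDiff.sum fun i _ => ?_
    have h3 : ContDiff ℝ ∞ (fun y => fderiv ℝ χ y (stdOrthonormalBasis ℝ E i)) :=
      (hχs.fderiv_right (m := ∞) (by norm_num)).clm_apply contDiff_const
    exact (h3.fderiv_right (m := ∞) (by norm_num)).clm_apply contDiff_const
  have hLapz : ∀ y, y ∉ closedBall x (2 * δ) → Δ χ y = 0 := by
    intro y hy
    apply lap_zero_of_eventually
    have : ∀ᶠ z in 𝓝 y, z ∉ closedBall x (2 * δ) := isClosed_closedBall.isOpen_compl.mem_nhds hy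
    filter_upwards [this] with z hz using hsupp z hz
  have hLapC : HasCompactSupport (Δ χ) :=
    HasCompactSupport.intro (isCompact_closedBall x (2 * δ)) hLapz
  have hT2 : T χ = ∫ y, u y * Δ χ y := by
    rw [← hpot _ hLapS hLapC]
    congr 1
    ext1 y
    exact (Phi_laplacian hχs hχc y).symm
  have hLapb : ∀ y, |Δ χ y| ≤ A * (δ⁻¹) ^ 2 := by
    intro y
    rw [hχ, laplacian_scale (bump_smooth.of_le two_le_infty), abs_mul, abs_of_nonneg (by positivity)]
    rw [mul_comm]
    exact mul_le_mul_of_nonneg_right (hAb _) (by positivity)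
  set B := closedBall x (2 * δ) with hB
  have hBm : MeasurableSet B := measurableSet_closedBall
  have hBvol : volume B = ENNReal.ofReal (c * δ ^ 3) := by
    rw [hB, EuclideanSpace.volume_closedBall_fin_three, ← ENNReal.ofReal_pow (by positivity),
      ← ENNReal.ofReal_mul (by positivity)]
    congr 1
    rw [hc]; ring
  have hmain : ‖∫ y, u y * Δ χ y‖ₑ ≤ ENNReal.ofReal (A * (δ⁻¹) ^ 2) * volume B ^ (1 - 1 / q) := by
    calc ‖∫ y, u y * Δ χ y‖ₑ ≤ ∫⁻ y, ‖u y * Δ χ y‖ₑ := enorm_integral_le_lintegral_enorm _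
      _ ≤ ∫⁻ y, B.indicator (fun y => ENNReal.ofReal (A * (δ⁻¹) ^ 2) * ‖u y‖ₑ) y := by
          refine lintegral_mono fun y => ?_
          by_cases hy : y ∈ B
          · rw [indicator_of_mem hy, enorm_mul, mul_comm]
            refine mul_le_mul' ?_ le_rfl
            rw [Real.enorm_eq_ofReal_abs]
            exact ENNReal.ofReal_le_ofReal (hLapb y)
          · rw [indicator_of_notMem hy, hLapz y hy]; simp
      _ = ENNReal.ofReal (A * (δ⁻¹) ^ 2) * ∫⁻ y in B, ‖u y‖ₑ := by
          rw [lintegral_indicator hBm, lintegral_const_mul' _ _ ENNReal.ofReal_ne_top]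
      _ ≤ ENNReal.ofReal (A * (δ⁻¹) ^ 2) * (1 * volume B ^ (1 - 1 / q)) := by
          refine mul_le_mul' le_rfl ?_
          have h1 := lintegral_le_of_small (μ := (volume : Measure E)) (q := q) (by linarith)
            (A := B) (K := B) (w := u) (hu.1 B (isCompact_closedBall _ _)).1 hBm
          rw [Measure.restrict_restrict hBm, inter_self] at h1
          refine h1.trans (mul_le_mul' ?_ le_rfl)
          exact (eLpNorm_mono_measure _ Measure.restrict_le_self).trans hn
      _ = _ := by rw [one_mul]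
  rw [hT1, hT2, ← Real.enorm_eq_ofReal_abs]
  refine hmain.trans (le_of_eq ?_)
  have h1q : 0 ≤ 1 - 1 / q := by
    have : 1 / q ≤ 1 := by rw [div_le_one hq0]; linarith
    linarith
  rw [hBvol, ENNReal.ofReal_rpow_of_nonneg (by positivity) h1q, ← ENNReal.ofReal_mul (by positivity)]
  congr 1
  rw [Real.mul_rpow hcpos.le (by positivity)]
  have h3 : (δ ^ 3) ^ (1 - 1 / q) = δ ^ (3 - 3 / q) := by
    rw [← Real.rpow_natCast δ 3, ← Real.rpow_mul hδ.le]
    congr 1
    push_cast
    ring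
  have h4 : (δ⁻¹) ^ 2 = δ ^ (-2 : ℝ) := by
    rw [inv_pow, Real.rpow_neg hδ.le]
    norm_num
  rw [h3, h4]
  have h5 : δ ^ (1 - 3 / q) = δ ^ (-2 : ℝ) * δ ^ (3 - 3 / q) := by
    rw [← Real.rpow_add hδ]
    congr 1
    ring
  rw [h5]
  ring

end Pool.Agent.Lib.MP_fe4d92_an
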