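import Mathlib

/-!
Definitions for the capacitary criterion, in the case of the Laplacian of `ℝ³` and the
space of locally `q`-integrable functions.
-/

namespace Pool.Agent.Lib.MP_fe4d92_an

open MeasureTheory Set Filter Topology Metric InnerProductSpace Laplacian
open scoped ENNReal ContDiff

/-- Euclidean three-space. -/
abbrev E : Type := EuclideanSpace ℝ (Fin 3)

/-- The fundamental solution of the Laplacian of `ℝ³` which is homogeneous of degree `-1`. -/
noncomputable def Phi (x : E) : ℝ := -(4 * Real.pi * ‖x‖)⁻¹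

/-- `S(σ)`: the functions that are smooth and harmonic on some open neighbourhood of `σ`. -/
def Sol (σ : Set E) : Set (E → ℝ) :=
  {f | ∃ V : Set E, IsOpen V ∧ σ ⊆ V ∧ ContDiffOn ℝ ∞ f V ∧ ∀ x ∈ V, Δ f x = 0}

/-- `T` is a distribution whose (compact) support is contained in the compact set `L`: a linear
functional on the smooth functions, bounded by finitely many derivatives on a compact set, and
zero on the smooth functions that vanish near `L`. -/
structure IsDistributionOn (T : (E → ℝ) → ℝ) (L : Set E) : Prop where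
  compact : IsCompact L
  map_add : ∀ f g : E → ℝ, ContDiff ℝ ∞ f → ContDiff ℝ ∞ g →
    T (fun x => f x + g x) = T f + T g
  map_smul : ∀ (c : ℝ) (f : E → ℝ), ContDiff ℝ ∞ f → T (fun x => c * f x) = c * T f
  continuity : ∃ (N : ℕ) (C : ℝ) (M : Set E), IsCompact M ∧ ∀ f : E → ℝ, ContDiff ℝ ∞ f →
    ∀ B : ℝ, (∀ j ≤ N, ∀ x ∈ M, ‖iteratedFDeriv ℝ j f x‖ ≤ B) → |T f| ≤ C * B
  support : ∀ f : E → ℝ, ContDiff ℝ ∞ f → (∃ V : Set E, IsOpen V ∧ L ⊆ V ∧ ∀ x ∈ V, f x = 0) →
    T f = 0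

/-- `u = Φ * T` in the sense of distributions. -/
def IsPotential (T : (E → ℝ) → ℝ) (u : E → ℝ) : Prop :=
  ∀ ψ : E → ℝ, ContDiff ℝ ∞ ψ → HasCompactSupport ψ →
    T (fun x => ∫ y, Phi (x - y) * ψ y) = ∫ x, u x * ψ x

/-- Membership in the space of locally `q`-integrable functions. -/
def LocLq (q : ℝ≥0∞) (f : E → ℝ) : Prop := ∀ M : Set E, IsCompact M → MemLp f q (volume.restrict M)

/-- Membership in the closure of the smooth functions in the space of locally `q`-integrable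
functions. -/
def TildeLq (q : ℝ≥0∞) (f : E → ℝ) : Prop :=
  LocLq q f ∧ ∀ M : Set E, IsCompact M → ∀ ε : ℝ≥0∞, 0 < ε →
    ∃ g : E → ℝ, ContDiff ℝ ∞ g ∧ eLpNorm (fun x => f x - g x) q (volume.restrict M) < ε

/-- The capacity `c(σ)`. -/
noncomputable def cap (q : ℝ≥0∞) (σ : Set E) : ℝ≥0∞ :=
  sSup {c | ∃ (T : (E → ℝ) → ℝ) (L : Set E) (u : E → ℝ), IsDistributionOn T L ∧ L ⊆ σ ∧
    IsPotential T u ∧ LocLq q u ∧ eLpNorm u q volume ≤ 1 ∧ c = ENNReal.ofReal |T (fun _ => 1)|}

/-- The capacity `c̃(σ)`. -/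
noncomputable def capTilde (q : ℝ≥0∞) (σ : Set E) : ℝ≥0∞ :=
  sSup {c | ∃ (T : (E → ℝ) → ℝ) (L : Set E) (u : E → ℝ), IsDistributionOn T L ∧ L ⊆ σ ∧
    IsPotential T u ∧ TildeLq q u ∧ eLpNorm u q volume ≤ 1 ∧ c = ENNReal.ofReal |T (fun _ => 1)|}

/-- Condition (1): the closure of `S(K)` in the space `L^q(K)` consists exactly of the classes
that belong to `S(int K)` and come from the closure of the smooth functions. -/
def Approximable (q : ℝ≥0∞) (K : Set E) : Prop :=
  ∀ f : E → ℝ, LocLq q f →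
    ((∀ ε : ℝ≥0∞, 0 < ε → ∃ g ∈ Sol K, eLpNorm (fun x => f x - g x) q (volume.restrict K) < ε) ↔
      ((∃ g : E → ℝ, TildeLq q g ∧ f =ᵐ[volume.restrict K] g) ∧
        ∃ h ∈ Sol (interior K), f =ᵐ[volume.restrict (interior K)] h))

/-- Condition (3). -/
def CapacityCondition (q : ℝ≥0∞) (K : Set E) : Prop :=
  ∀ x ∈ frontier K,
    0 < liminf (fun δ : ℝ => cap q (ball x δ \ K) / capTilde q (ball x δ \ interior K)) (𝓝[>] 0)

end Pool.Agent.Lib.MP_fe4d92_an
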