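import Pool.Agent.Lib.MP_fe4d92_an.NonApprox

/-!
Condition (1) fails for the compact set.
-/

namespace Pool.Agent.Lib.MP_fe4d92_an

open MeasureTheory Set Filter Topology Metric InnerProductSpace Laplacian
open scoped ENNReal ContDiff

/-- Pairing of an `L^q` function with one piece. -/
lemma piece_bound {q : ℝ} (hq : 1 ≤ q) {w : E → ℝ} {K B : Set E}
    (hw : AEStronglyMeasurable w (volume.restrict K)) (hB : MeasurableSet B) {G : E → ℝ} {c : ℝ}
    (hG : ∀ x, |G x| ≤ c) (hG0 : ∀ x, x ∉ B → G x = 0) :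
    ∫⁻ x in K, ‖w x‖ₑ * ‖G x‖ₑ ≤
      ENNReal.ofReal c * (eLpNorm w (ENNReal.ofReal q) (volume.restrict K) * volume B ^ (1 - 1 / q)) := by
  calc ∫⁻ x in K, ‖w x‖ₑ * ‖G x‖ₑ ≤ ∫⁻ x in K, B.indicator (fun x => ENNReal.ofReal c * ‖w x‖ₑ) x := by
        refine lintegral_mono fun x => ?_
        by_cases hx : x ∈ B
        · rw [indicator_of_mem hx, mul_comm]
          refine mul_le_mul' ?_ le_rfl
          rw [Real.enorm_eq_ofReal_abs]
          exact ENNReal.ofReal_le_ofReal (hG x)
        · rw [indicator_of_notMem hx, hG0 x hx]; simp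
    _ = ENNReal.ofReal c * ∫⁻ x in B, ‖w x‖ₑ ∂(volume.restrict K) := by
        rw [lintegral_indicator hB, lintegral_const_mul' _ _ ENNReal.ofReal_ne_top]
    _ ≤ _ := mul_le_mul' le_rfl (lintegral_le_of_small hq hw hB)

theorem not_approximable {q : ℝ} (hq : 3 < q) : ¬ Approximable (ENNReal.ofReal q) KK := by
  intro hA
  have hq1 : 1 ≤ q := by linarith
  have hq0 : 0 < q := by linarith
  obtain ⟨M, hM, hM0, hMj⟩ := exists_bounds
  set I0 : ℝ := (∫ t, al t) ^ 2 with hI0
  have hI0pos : 0 < I0 := by have := al_int_pos; positivity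
  have hexp : 0 < 1 - 1 / q := by
    have : 1 / q < 1 := by rw [div_lt_one hq0]; linarith
    linarith
  -- the total constant
  set cj : ℕ → ℝ := fun j => M * (tt j)⁻¹ * ((tt j) ^ 2) ^ (1 - 1 / q) with hcj
  have hcj0 : ∀ j, 0 ≤ cj j := fun j => by have := tt_pos j; positivity
  have hcjS : Summable cj := by
    have h1 : ∀ j, cj j = (M * (1/16 : ℝ) ^ (1 - 2 / q)) * ((1/16 : ℝ) ^ (1 - 2 / q)) ^ j := by
      intro j
      have ht := tt_pos j
      have e1 : ((tt j) ^ 2) ^ (1 - 1 / q) = (tt j) ^ (2 - 2 / q) := by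
        rw [← Real.rpow_natCast (tt j) 2, ← Real.rpow_mul ht.le]
        congr 1; push_cast; ring
      have e2 : (tt j)⁻¹ * (tt j) ^ (2 - 2 / q) = (tt j) ^ (1 - 2 / q) := by
        rw [← Real.rpow_neg_one, ← Real.rpow_add ht]
        congr 1; ring
      have e3 : (tt j) ^ (1 - 2 / q) = (1/16 : ℝ) ^ (1 - 2 / q) * ((1/16 : ℝ) ^ (1 - 2 / q)) ^ j := by
        unfold tt
        rw [← pow_succ', ← Real.rpow_natCast, ← Real.rpow_natCast, ← Real.rpow_mul (by norm_num),
          ← Real.rpow_mul (by norm_num), mul_comm]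
      simp only [hcj]
      rw [e1, mul_assoc, e2, e3]
      ring
    have h2 : cj = fun j => (M * (1/16 : ℝ) ^ (1 - 2 / q)) * ((1/16 : ℝ) ^ (1 - 2 / q)) ^ j :=
      funext h1
    rw [h2]
    refine Summable.mul_left _ (summable_geometric_of_lt_one (by positivity) ?_)
    refine Real.rpow_lt_one (by norm_num) (by norm_num) ?_
    have : 2 / q < 1 := by rw [div_lt_one hq0]; linarith
    linarith
  set S : ℝ≥0∞ := ∑' j, ENNReal.ofReal (cj j) with hS
  have hSt : S ≠ ⊤ := hcjS.tsum_ofReal_ne_top
  set CT : ℝ≥0∞ := ENNReal.ofReal M + S with hCT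
  have hCTt : CT ≠ ⊤ := ENNReal.add_ne_top.mpr ⟨ENNReal.ofReal_ne_top, hSt⟩
  have hCTp : CT ≠ 0 := by
    rw [hCT]
    have : 0 < ENNReal.ofReal M := ENNReal.ofReal_pos.mpr hM
    exact (lt_of_lt_of_le this le_self_add).ne'
  set ε : ℝ≥0∞ := ENNReal.ofReal (I0 / 2) / CT with hε
  have hεpos : 0 < ε := ENNReal.div_pos (ENNReal.ofReal_pos.mpr (by positivity)).ne' hCTt
  have hεCT : ε * CT = ENNReal.ofReal (I0 / 2) := ENNReal.div_mul_cancel hCTp hCTt
  -- use the approximation property
  obtain ⟨g, ⟨V, hV, hKV, hgs, hgl⟩, hg⟩ := ((hA hs (hs_loc _)).mpr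
    ⟨⟨hs, hs_tilde hq1, EventuallyEq.rfl⟩, hs, hs_sol, EventuallyEq.rfl⟩) ε hεpos
  set w : E → ℝ := fun x => hs x - g x with hw
  -- the tail of the compact sets
  obtain ⟨N0, hN0⟩ : ∃ N, KN N ⊆ V := by
    refine exists_subset_nhds_of_isCompact' (directed_of_isDirected_le fun m n h => KN_anti h) isCompact_KN
      (fun N => (isCompact_KN N).isClosed) ?_
    intro x hx
    rw [iInter_KN] at hx
    exact hV.mem_nhds (hKV hx)
  have hgc : ContinuousOn g V := hgs.continuousOn
  obtain ⟨G, hG⟩ := (isCompact_KN N0).exists_bound_of_continuousOn (hgc.mono hN0)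
  have hwK : AEStronglyMeasurable w (volume.restrict KK) := by
    have h1 : AEStronglyMeasurable g (volume.restrict KK) :=
      (hgc.mono hKV).aestronglyMeasurable isCompact_KK.measurableSet
    exact hs_measurable.aestronglyMeasurable.sub h1
  -- main inequality for every large N
  have main : ∀ N, N0 ≤ N → ENNReal.ofReal I0 ≤ ε * CT +
      ENNReal.ofReal ((1 + G) * M) * volume (KN N \ KK) := by
    intro N hN
    have hsub : tsupport (phi N) ⊆ V := (tsupport_phi N).trans ((KN_anti hN).trans hN0)
    have hphi2 : ContDiff ℝ 2 (phi N) := (phi_smooth N).of_le two_le_inf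
    have hgreen : ∫ x, g x * Δ (phi N) x = 0 := by
      rw [green hV (hgs.of_le two_le_inf) hphi2 (phi_compact N) hsub]
      have h2 : ∀ x, phi N x * Δ g x = 0 := by
        intro x
        by_cases hx : x ∈ V
        · rw [hgl x hx, mul_zero]
        · rw [image_eq_zero_of_notMem_tsupport fun h => hx (hsub h), zero_mul]
      simp_rw [h2]; simp
    have hlap0 : ∀ x, x ∉ tsupport (phi N) → Δ (phi N) x = 0 := by
      intro x hx
      apply lap_zero'
      exact notMem_tsupport_iff_eventuallyEq.mp hx
    have hgint : Integrable (fun x => g x * Δ (phi N) x) volume := by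
      refine integrable_of_contOn (V := V) (hgc.mul (cont_lap (phi_smooth N)).continuousOn)
        (phi_compact N).isCompact hsub fun x hx => by rw [hlap0 x hx, mul_zero]
    have hpair : ∫ x, w x * Δ (phi N) x = -I0 := by
      have h1 : ∀ x, w x * Δ (phi N) x = hs x * Δ (phi N) x - g x * Δ (phi N) x := by
        intro x; simp only [hw]; ring
      simp_rw [h1]
      rw [integral_sub (integrable_hs_lap (phi_smooth N) (phi_compact N)) hgint, int_hs_phi, hgreen,
        sub_zero]
    have hbig : ENNReal.ofReal I0 ≤ ∫⁻ x in KN N, ‖w x‖ₑ * ‖Δ (phi N) x‖ₑ := by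
      have h1 : ENNReal.ofReal I0 = ‖∫ x, w x * Δ (phi N) x‖ₑ := by
        rw [hpair, enorm_neg, Real.enorm_eq_ofReal_abs, abs_of_pos hI0pos]
      rw [h1]
      refine (enorm_integral_le_lintegral_enorm _).trans ?_
      rw [← lintegral_indicator (isCompact_KN N).measurableSet]
      refine lintegral_mono fun x => ?_
      by_cases hx : x ∈ KN N
      · rw [indicator_of_mem hx, enorm_mul]
      · rw [indicator_of_notMem hx, hlap0 x fun h => hx (tsupport_phi N h)]; simp
    have hsplit : KN N = KK ∪ (KN N \ KK) := by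
      rw [union_sdiff_self, union_eq_self_of_subset_left (KK_subset N)]
    rw [hsplit] at hbig
    refine hbig.trans ((lintegral_union_le _ _ _).trans ?_)
    refine add_le_add ?_ ?_
    · -- on the compact set
      calc ∫⁻ x in KK, ‖w x‖ₑ * ‖Δ (phi N) x‖ₑ
          ≤ ∫⁻ x in KK, (‖w x‖ₑ * ‖Δ P0 x‖ₑ + ∑ j ∈ Finset.range N, ‖w x‖ₑ * ‖Δ (Pj j) x‖ₑ) := by
            refine lintegral_mono fun x => ?_
            rw [← Finset.mul_sum, ← mul_add]
            refine mul_le_mul' le_rfl ?_
            rw [lap_phi]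
            refine (enorm_sub_le).trans (add_le_add le_rfl ?_)
            exact enorm_sum_le _ _
        _ = (∫⁻ x in KK, ‖w x‖ₑ * ‖Δ P0 x‖ₑ) + ∑ j ∈ Finset.range N, ∫⁻ x in KK, ‖w x‖ₑ * ‖Δ (Pj j) x‖ₑ := by
            have hm1 : AEMeasurable (fun x => ‖w x‖ₑ) (volume.restrict KK) := hwK.enorm
            rw [lintegral_add_left']
            · congr 1
              rw [lintegral_finsetSum']
              intro j _
              exact hm1.mul (cont_lap (Pj_smooth j)).enorm.measurable.aemeasurable
            · exact hm1.mul (cont_lap P0_smooth).enorm.measurable.aemeasurable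
        _ ≤ ENNReal.ofReal M * (eLpNorm w (ENNReal.ofReal q) (volume.restrict KK) * 1) +
            ∑ j ∈ Finset.range N, ENNReal.ofReal (cj j) * eLpNorm w (ENNReal.ofReal q) (volume.restrict KK) := by
            refine add_le_add ?_ (Finset.sum_le_sum fun j _ => ?_)
            · have := piece_bound (q := q) hq1 hwK meas_Bx0 hM0 (fun x hx => lapP0_zero hx)
              rw [vol_Bx0, ENNReal.one_rpow] at this
              exact this
            · have := piece_bound (q := q) hq1 hwK (meas_Bx j) (hMj j) (fun x hx => lapPj_zero hx)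
              rw [vol_Bx] at this
              refine this.trans (le_of_eq ?_)
              have ht := tt_pos j
              have hcjj : ENNReal.ofReal (cj j) = ENNReal.ofReal (M * (tt j)⁻¹) *
                  ENNReal.ofReal (((tt j) ^ 2) ^ (1 - 1 / q)) := by
                rw [← ENNReal.ofReal_mul (by positivity)]
              rw [ENNReal.ofReal_rpow_of_nonneg (by positivity) hexp.le, hcjj, mul_assoc]
              congr 1
              rw [mul_comm]
        _ ≤ ENNReal.ofReal M * eLpNorm w (ENNReal.ofReal q) (volume.restrict KK) +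
              S * eLpNorm w (ENNReal.ofReal q) (volume.restrict KK) := by
            rw [mul_one, ← Finset.sum_mul]
            refine add_le_add le_rfl (mul_le_mul' ?_ le_rfl)
            exact ENNReal.sum_le_tsum _
        _ = eLpNorm w (ENNReal.ofReal q) (volume.restrict KK) * CT := by rw [hCT]; ring
        _ ≤ ε * CT := mul_le_mul' hg.le le_rfl
    · -- on the remaining tubes
      calc ∫⁻ x in KN N \ KK, ‖w x‖ₑ * ‖Δ (phi N) x‖ₑ
          ≤ ∫⁻ x in KN N \ KK, ENNReal.ofReal ((1 + G) * M) := by
            refine setLIntegral_mono measurable_const fun x hx => ?_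
            obtain ⟨j, hj, hxj⟩ := diff_subset_tubes N hx
            rw [lap_phi_tube hj hxj, ← enorm_mul, Real.enorm_eq_ofReal_abs]
            apply ENNReal.ofReal_le_ofReal
            rw [abs_mul]
            have hwx : |w x| ≤ 1 + G := by
              have h1 := hG x (KN_anti hN hx.1)
              rw [Real.norm_eq_abs] at h1
              calc |w x| ≤ |hs x| + |g x| := abs_sub _ _
                _ ≤ 1 + G := add_le_add (hs_abs_le x) h1
            exact mul_le_mul hwx (hM0 x) (abs_nonneg _) ((abs_nonneg _).trans hwx)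
        _ = _ := by rw [setLIntegral_const]
  -- pass to the limit
  have hlim : Tendsto (fun N => ε * CT + ENNReal.ofReal ((1 + G) * M) * volume (KN N \ KK)) atTop
      (𝓝 (ε * CT + ENNReal.ofReal ((1 + G) * M) * 0)) := by
    refine Tendsto.const_add _ ?_
    exact ENNReal.Tendsto.const_mul tendsto_diff (Or.inr ENNReal.ofReal_ne_top)
  have hfin : ENNReal.ofReal I0 ≤ ε * CT + ENNReal.ofReal ((1 + G) * M) * 0 :=
    ge_of_tendsto hlim (by filter_upwards [eventually_ge_atTop N0] with N hN using main N hN)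
  rw [mul_zero, add_zero, hεCT] at hfin
  have := (ENNReal.ofReal_le_ofReal_iff (by positivity)).mp hfin
  linarith

end Pool.Agent.Lib.MP_fe4d92_an
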