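import Mathlib

/-!
Green's second identity for a compactly supported function and a function that is smooth near
its support, in a finite-dimensional Euclidean space.
-/

namespace Pool.Agent.Lib.MP_fe4d92_an

open MeasureTheory Set Filter Topology Metric InnerProductSpace Laplacian
open scoped ENNReal ContDiff

variable {F : Type*} [NormedAddCommGroup F] [InnerProductSpace ℝ F] [FiniteDimensional ℝ F]
  [MeasurableSpace F] [BorelSpace F]

lemma integrable_of_contOn {V S : Set F} {f : F → ℝ} (hf : ContinuousOn f V) (hS : IsCompact S)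
    (hSV : S ⊆ V) (h0 : ∀ x, x ∉ S → f x = 0) : Integrable f (volume : Measure F) := by
  have h1 : IntegrableOn f S volume := (hf.mono hSV).integrableOn_compact hS
  rwa [integrableOn_iff_integrable_of_support_subset] at h1
  intro x hx
  by_contra h
  exact hx (h0 x h)

omit [MeasurableSpace F] [BorelSpace F] in
lemma laplacian_eq_sum (f : F → ℝ) (x : F) :
    Δ f x = ∑ i, fderiv ℝ (fun y => fderiv ℝ f y) x (stdOrthonormalBasis ℝ F i)
      (stdOrthonormalBasis ℝ F i) := by
  rw [laplacian_eq_iteratedFDeriv_orthonormalBasis f (stdOrthonormalBasis ℝ F)]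
  simp only [iteratedFDeriv_two_apply]
  rfl

omit [MeasurableSpace F] [BorelSpace F] [FiniteDimensional ℝ F] in
lemma fderiv_fderiv_apply {f : F → ℝ} {x : F} (h : DifferentiableAt ℝ (fderiv ℝ f) x) (a b : F) :
    fderiv ℝ (fun y => fderiv ℝ f y a) x b = fderiv ℝ (fun y => fderiv ℝ f y) x b a := by
  have h1 : HasFDerivAt (fun y => fderiv ℝ f y a)
      ((ContinuousLinearMap.apply ℝ ℝ a).comp (fderiv ℝ (fderiv ℝ f) x)) x :=
    (ContinuousLinearMap.apply ℝ ℝ a).hasFDerivAt.comp x h.hasFDerivAt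
  rw [h1.fderiv]
  rfl

omit [MeasurableSpace F] [BorelSpace F] [FiniteDimensional ℝ F] in
lemma diffAt_fderiv {f : F → ℝ} {x : F} (h : ContDiffAt ℝ 2 f x) :
    DifferentiableAt ℝ (fderiv ℝ f) x := by
  have h1 : ContDiffAt ℝ 1 (fderiv ℝ f) x := h.fderiv_right (m := 1) (by norm_num)
  exact h1.differentiableAt (by norm_num)

omit [MeasurableSpace F] [BorelSpace F] in
lemma laplacian_eq_sum' {f : F → ℝ} {x : F} (h : ContDiffAt ℝ 2 f x) :
    Δ f x = ∑ i, fderiv ℝ (fun y => fderiv ℝ f y (stdOrthonormalBasis ℝ F i)) x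
      (stdOrthonormalBasis ℝ F i) := by
  rw [laplacian_eq_sum]
  refine Finset.sum_congr rfl fun i _ => ?_
  rw [fderiv_fderiv_apply (diffAt_fderiv h)]

omit [MeasurableSpace F] [BorelSpace F] [FiniteDimensional ℝ F] in
lemma contOn_dir {V : Set F} (hV : IsOpen V) {f : F → ℝ} (hf : ContDiffOn ℝ 2 f V) (a : F) :
    ContinuousOn (fun y => fderiv ℝ f y a) V ∧
      ContinuousOn (fun y => fderiv ℝ (fun z => fderiv ℝ f z a) y a) V ∧
      ∀ y ∈ V, DifferentiableAt ℝ (fun z => fderiv ℝ f z a) y := by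
  have h1 : ContDiffOn ℝ 1 (fun y => fderiv ℝ f y) V := hf.fderiv_of_isOpen hV (by norm_num)
  have h2 : ContDiffOn ℝ 1 (fun y => fderiv ℝ f y a) V := h1.clm_apply contDiffOn_const
  refine ⟨h2.continuousOn, ?_, fun y hy => ?_⟩
  · have h3 : ContDiffOn ℝ 0 (fun y => fderiv ℝ (fun z => fderiv ℝ f z a) y) V :=
      h2.fderiv_of_isOpen hV (by norm_num)
    exact h3.continuousOn.clm_apply continuousOn_const
  · exact (h2.contDiffAt (hV.mem_nhds hy)).differentiableAt (by norm_num)

/-- **Green's second identity.** -/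
theorem green {u φ : F → ℝ} {V : Set F} (hV : IsOpen V) (hu : ContDiffOn ℝ 2 u V)
    (hφ : ContDiff ℝ 2 φ) (hc : HasCompactSupport φ) (hs : tsupport φ ⊆ V) :
    ∫ x, u x * Δ φ x = ∫ x, φ x * Δ u x := by
  set b := stdOrthonormalBasis ℝ F
  have hφV : ContDiffOn ℝ 2 φ V := hφ.contDiffOn
  have hts : IsCompact (tsupport φ) := hc.isCompact
  have hu0 : ContinuousOn u V := hu.continuousOn
  have hφ0 : ContinuousOn φ V := hφV.continuousOn
  have hdu : ∀ y ∈ V, DifferentiableAt ℝ u y := fun y hy =>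
    (hu.contDiffAt (hV.mem_nhds hy)).differentiableAt (by norm_num)
  have hz0 : ∀ x, x ∉ tsupport φ → φ x = 0 := fun x hx => image_eq_zero_of_notMem_tsupport hx
  have hz1 : ∀ a x, x ∉ tsupport φ → fderiv ℝ φ x a = 0 := by
    intro a x hx
    have : φ =ᶠ[𝓝 x] 0 := notMem_tsupport_iff_eventuallyEq.mp hx
    rw [this.fderiv_eq, Pi.zero_def, fderiv_fun_const]; rfl
  have hz2 : ∀ a x, x ∉ tsupport φ → fderiv ℝ (fun z => fderiv ℝ φ z a) x a = 0 := by
    intro a x hx
    have h1 : ∀ᶠ y in 𝓝 x, y ∉ tsupport φ := (isClosed_tsupport φ).isOpen_compl.mem_nhds hx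
    have : (fun z => fderiv ℝ φ z a) =ᶠ[𝓝 x] fun _ => (0:ℝ) := by
      filter_upwards [h1] with y hy using hz1 a y hy
    rw [this.fderiv_eq, fderiv_fun_const]; rfl
  have hts1 : ∀ a, tsupport (fun z => fderiv ℝ φ z a) ⊆ tsupport φ := by
    intro a
    refine closure_minimal (fun x hx => ?_) (isClosed_tsupport φ)
    by_contra h
    exact hx (hz1 a x h)
  -- one direction
  have key : ∀ a : F, ∫ x, u x * fderiv ℝ (fun z => fderiv ℝ φ z a) x a =
      ∫ x, φ x * fderiv ℝ (fun z => fderiv ℝ u z a) x a := by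
    intro a
    obtain ⟨c1, c2, c3⟩ := contOn_dir hV hφV a
    obtain ⟨d1, d2, d3⟩ := contOn_dir hV hu a
    have i1 : Integrable (fun x => fderiv ℝ u x a * fderiv ℝ φ x a) volume :=
      integrable_of_contOn (d1.mul c1) hts hs (fun x hx => by simp [hz1 a x hx])
    have i2 : Integrable (fun x => u x * fderiv ℝ (fun z => fderiv ℝ φ z a) x a) volume :=
      integrable_of_contOn (hu0.mul c2) hts hs (fun x hx => by simp [hz2 a x hx])
    have i3 : Integrable (fun x => u x * fderiv ℝ φ x a) volume :=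
      integrable_of_contOn (hu0.mul c1) hts hs (fun x hx => by simp [hz1 a x hx])
    have i4 : Integrable (fun x => fderiv ℝ (fun z => fderiv ℝ u z a) x a * φ x) volume :=
      integrable_of_contOn (d2.mul hφ0) hts hs (fun x hx => by simp [hz0 x hx])
    have i5 : Integrable (fun x => fderiv ℝ u x a * φ x) volume :=
      integrable_of_contOn (d1.mul hφ0) hts hs (fun x hx => by simp [hz0 x hx])
    have e1 := integral_mul_fderiv_eq_neg_fderiv_mul_of_integrable (μ := (volume : Measure F))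
      (f := u) (g := fun z => fderiv ℝ φ z a) (v := a) i1 i2 i3
      (fun x hx => hdu x (hs (hts1 a hx)))
      (fun x _ => (diffAt_fderiv hφ.contDiffAt).clm_apply (differentiableAt_const _))
    have e2 := integral_mul_fderiv_eq_neg_fderiv_mul_of_integrable (μ := (volume : Measure F))
      (f := fun z => fderiv ℝ u z a) (g := φ) (v := a) i4 i1 i5
      (fun x hx => d3 x (hs hx))
      (fun x _ => (hφ.contDiffAt).differentiableAt (by norm_num))
    rw [e1, e2, neg_neg]
    exact integral_congr_ae (Eventually.of_forall fun x => mul_comm _ _)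
  have hL : ∀ x, u x * Δ φ x = ∑ i, u x * fderiv ℝ (fun z => fderiv ℝ φ z (b i)) x (b i) := by
    intro x
    rw [laplacian_eq_sum' hφ.contDiffAt, Finset.mul_sum]
  have hR : ∀ x, φ x * Δ u x = ∑ i, φ x * fderiv ℝ (fun z => fderiv ℝ u z (b i)) x (b i) := by
    intro x
    by_cases hx : x ∈ tsupport φ
    · rw [laplacian_eq_sum' (hu.contDiffAt (hV.mem_nhds (hs hx))), Finset.mul_sum]
    · simp [hz0 x hx]
  simp_rw [hL, hR]
  rw [integral_finsetSum, integral_finsetSum]
  · exact Finset.sum_congr rfl fun i _ => key (b i)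
  · intro i _
    obtain ⟨d1, d2, d3⟩ := contOn_dir hV hu (b i)
    exact integrable_of_contOn (hφ0.mul d2) hts hs (fun x hx => by simp [hz0 x hx])
  · intro i _
    obtain ⟨c1, c2, c3⟩ := contOn_dir hV hφV (b i)
    exact integrable_of_contOn (hu0.mul c2) hts hs (fun x hx => by simp [hz2 (b i) x hx])

end Pool.Agent.Lib.MP_fe4d92_an
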