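import Pool.Agent.Lib.MP_9aae89_an.Near
import Pool.Agent.Lib.MP_fe4d92_an.Defs
import Pool.Agent.Lib.MP_fe4d92_an.Green

/-!
`Φ * Δχ = χ` for test functions `χ` on `ℝ³`.
-/

namespace Pool.Agent.Lib.MP_fe4d92_an

open MeasureTheory Set Filter Topology Metric InnerProductSpace Laplacian
open scoped ENNReal ContDiff
open Pool.Agent.Lib.MP_9aae89_an

lemma two_le_infty : (2 : WithTop ℕ∞) ≤ (∞ : WithTop ℕ∞) := by
  norm_cast

lemma c0_eq : c0 = 4 * Real.pi := by
  unfold c0
  rw [Measure.toSphere_real_apply_univ, measureReal_def, EuclideanSpace.volume_ball_fin_three]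
  have hd : Module.finrank ℝ E3 = 3 := by simp
  rw [hd, ENNReal.toReal_mul, ENNReal.toReal_ofReal (by positivity)]
  simp
  ring

lemma ww_le_one (Z : E3) : ww Z ≤ 1 := by
  unfold ww
  exact inv_le_one_of_one_le₀ (le_max_left _ _)

lemma good_ball (R : ℝ) : ∃ M : ℝ, Good (closedBall (0 : E3) R) M := by
  have hfin : volume (closedBall (0 : E3) R) < (⊤ : ℝ≥0∞) := measure_closedBall_lt_top
  have h1 : ∀ X : E3, Integrable (fun Y => wn (X - Y)) volume := fun X =>
    integrable_wn.comp_sub_left X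
  have h2 : ∀ X : E3, IntegrableOn (fun Y => ww (X - Y)) (closedBall (0 : E3) R) volume := by
    intro X
    refine Measure.integrableOn_of_bounded (M := 1) hfin.ne
      ((measurable_ww.comp (by fun_prop)).aestronglyMeasurable) ?_
    filter_upwards with Y
    rw [Real.norm_of_nonneg (ww_nonneg _)]
    exact ww_le_one _
  refine ⟨(∫ Z, wn Z) + volume.real (closedBall (0 : E3) R) + 1, measurableSet_closedBall, ?_, ?_, ?_⟩
  · have h3 : 0 ≤ ∫ Z, wn Z := integral_nonneg fun Z => wn_nonneg Z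
    have h4 : 0 ≤ volume.real (closedBall (0 : E3) R) := measureReal_nonneg
    linarith
  · intro X
    unfold WW
    exact (h1 X).integrableOn.add (h2 X)
  · intro X
    unfold WW
    rw [integral_add (h1 X).integrableOn (h2 X)]
    have h3 : ∫ Y in closedBall (0 : E3) R, wn (X - Y) ≤ ∫ Z, wn Z := by
      rw [← integral_sub_left_eq_self wn volume X]
      exact setIntegral_le_integral (h1 X) (Eventually.of_forall fun Y => wn_nonneg _)
    have h4 : ∫ Y in closedBall (0 : E3) R, ww (X - Y) ≤ volume.real (closedBall (0 : E3) R) := by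
      calc ∫ Y in closedBall (0 : E3) R, ww (X - Y) ≤ ∫ Y in closedBall (0 : E3) R, (1:ℝ) :=
            setIntegral_mono (h2 X) (integrableOn_const hfin.ne) fun Y => ww_le_one _
        _ = _ := by simp
    linarith

lemma locInt_kd : LocallyIntegrable (kd 0) (volume : Measure E3) := by
  refine locallyIntegrable_WW.mono (stronglyMeasurable_kd 0).aestronglyMeasurable ?_
  filter_upwards [ae_ne_E3 0] with Z hZ
  have := norm_kd_zero_le hZ
  rw [one_mul] at this
  rwa [Real.norm_of_nonneg (WW_nonneg Z)]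

lemma pot_deriv {ψ : E3 → ℝ} (hψ : ContDiff ℝ 1 ψ) (hc : HasCompactSupport ψ) (X a : E3) :
    fderiv ℝ (pot (kd 0) ψ) X a = pot (kd 0) (fun Y => fderiv ℝ ψ Y a) X := by
  obtain ⟨-, D, hD, hDa⟩ := conv_deriv locInt_kd hψ hc
  rw [(hD X).fderiv, (hDa X a).2]
  unfold pot
  rw [← integral_sub_left_eq_self (fun Y => (fderiv ℝ ψ Y a) • kd 0 (X - Y)) volume X]
  congr 1
  ext1 t
  rw [sub_sub_cancel]

lemma pot_smooth {ψ : E3 → ℝ} (hψ : ContDiff ℝ ∞ ψ) (hc : HasCompactSupport ψ) :
    ContDiff ℝ ∞ (pot (kd 0) ψ) := by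
  set LL : ℝ →L[ℝ] ℝ →L[ℝ] ℝ := (ContinuousLinearMap.lsmul ℝ ℝ).flip with hLL
  have LL_apply : ∀ (v : ℝ) (s : ℝ), LL v s = s • v := fun v s => by simp [hLL]
  have hconv : pot (kd 0) ψ = MeasureTheory.convolution (kd 0) ψ LL volume := by
    ext1 X
    unfold pot convolution
    rw [← integral_sub_left_eq_self (fun Y => ψ Y • kd 0 (X - Y)) volume X]
    congr 1
    ext1 t
    rw [LL_apply, sub_sub_cancel]
  rw [hconv]
  have := hc.contDiff_convolution_right (n := ⊤) LL locInt_kd (by exact_mod_cast hψ)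
  exact_mod_cast this

/-- `Φ * Δχ = χ`. -/
theorem pot_laplacian {χ : E3 → ℝ} (hχ : ContDiff ℝ ∞ χ) (hc : HasCompactSupport χ) (X : E3) :
    pot (kd 0) (Δ χ) X = -(c0 * χ X) := by
  obtain ⟨R, hR⟩ := hc.isCompact.isBounded.subset_closedBall 0
  obtain ⟨M, hM⟩ := good_ball R
  obtain ⟨A, hA⟩ := hc.exists_bound_of_continuous hχ.continuous
  have hdens : Dens (closedBall (0 : E3) R) χ A := by
    refine ⟨hχ.continuous.aestronglyMeasurable, hA, fun Y hY => ?_⟩
    exact image_eq_zero_of_notMem_tsupport fun h => hY (hR h)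
  have h1 : ContDiff ℝ 1 χ := hχ.of_le (by norm_num)
  obtain ⟨h2, h3⟩ := near_C2 hM h1 hc hdens
  rw [← h3 X, laplacian_eq_sum' h2.contDiffAt]
  set b := stdOrthonormalBasis ℝ E3
  have hd1 : ∀ a : E3, ContDiff ℝ ∞ (fun Y => fderiv ℝ χ Y a) := fun a =>
    (hχ.fderiv_right (m := ∞) (by norm_num)).clm_apply contDiff_const
  have hc1 : ∀ a : E3, HasCompactSupport (fun Y => fderiv ℝ χ Y a) := fun a =>
    (hc.fderiv ℝ).comp_left (g := fun T : E3 →L[ℝ] ℝ => T a) rfl
  have h4 : ∀ a : E3, fderiv ℝ (fun y => fderiv ℝ (pot (kd 0) χ) y a) X a =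
      pot (kd 0) (fun Y => fderiv ℝ (fun z => fderiv ℝ χ z a) Y a) X := by
    intro a
    have h5 : (fun y => fderiv ℝ (pot (kd 0) χ) y a) = pot (kd 0) (fun Y => fderiv ℝ χ Y a) := by
      ext1 y; exact pot_deriv h1 hc y a
    rw [h5, pot_deriv ((hd1 a).of_le (by norm_num)) (hc1 a)]
  simp_rw [h4]
  unfold pot
  rw [← integral_finsetSum]
  · congr 1
    ext1 Y
    rw [laplacian_eq_sum' (hχ.contDiffAt.of_le two_le_infty), ← Finset.sum_smul]
  · intro i _
    have hcc : HasCompactSupport (fun Y => fderiv ℝ (fun z => fderiv ℝ χ z (b i)) Y (b i)) :=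
      ((hc1 (b i)).fderiv ℝ).comp_left (g := fun T : E3 →L[ℝ] ℝ => T (b i)) rfl
    have hcont : Continuous (fun Y => fderiv ℝ (fun z => fderiv ℝ χ z (b i)) Y (b i)) :=
      (((hd1 (b i)).fderiv_right (m := ∞) (by norm_num)).clm_apply contDiff_const).continuous
    have hK : LocallyIntegrable (fun Y => kd 0 (X - Y)) (volume : Measure E3) := by
      have h6 := hcc.isCompact
      rw [locallyIntegrable_iff]
      intro k hk
      have h7 : IsCompact ((fun Y => X - Y) '' k) := hk.image (by fun_prop)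
      have h8 := (locallyIntegrable_iff.mp locInt_kd) _ h7
      have h9 : MeasurePreserving (fun Y : E3 => X - Y) volume volume :=
        Measure.measurePreserving_sub_left volume X
      have h10 : MeasurableEmbedding (fun Y : E3 => X - Y) :=
        (Homeomorph.subLeft X).measurableEmbedding
      have h11 := (h9.integrableOn_image h10 (f := kd 0) (s := k)).mp h8
      exact h11
    have := hK.integrable_smul_left_of_hasCompactSupport hcont hcc
    exact this

lemma Phi_eq (x : E) : Phi x = -(4 * Real.pi)⁻¹ * kd 0 x := by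
  unfold Phi kd
  rw [rho_zero, mul_inv]
  ring

/-- `Φ * Δχ = χ` for every test function `χ`. -/
theorem Phi_laplacian {χ : E → ℝ} (hχ : ContDiff ℝ ∞ χ) (hc : HasCompactSupport χ) (x : E) :
    ∫ y, Phi (x - y) * Δ χ y = χ x := by
  have h := pot_laplacian hχ hc x
  rw [c0_eq] at h
  unfold pot at h
  have h2 : ∀ y, Phi (x - y) * Δ χ y = -(4 * Real.pi)⁻¹ * (Δ χ y • kd 0 (x - y)) := by
    intro y
    rw [Phi_eq, smul_eq_mul]; ring
  simp_rw [h2]
  rw [integral_const_mul, h]
  have : (4 * Real.pi) ≠ 0 := by positivity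
  field_simp

end Pool.Agent.Lib.MP_fe4d92_an
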