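import Pool.Agent.Lib.MP_fe4d92_an.NonApprox
import Pool.Agent.Lib.MP_fe4d92_an.CapLower
import Pool.Agent.Lib.MP_fe4d92_an.CapUpper

/-!
Near every boundary point the complement of the compact set contains long segments; the capacity
condition (3) follows.
-/

namespace Pool.Agent.Lib.MP_fe4d92_an

open MeasureTheory Set Filter Topology Metric InnerProductSpace Laplacian
open scoped ENNReal ContDiff

/-- The closed tube. -/
def CTube (j : ℕ) : Set E := {x | |x 1 - yy j| ≤ tt j / 4 ∧ |x 2 - tt j| ≤ tt j / 4}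

lemma isClosed_CTube (j : ℕ) : IsClosed (CTube j) := by
  have h1 : Continuous (fun x : E => |x 1 - yy j|) := ((cont_coord 1).sub continuous_const).abs
  have h2 : Continuous (fun x : E => |x 2 - tt j|) := ((cont_coord 2).sub continuous_const).abs
  exact (isClosed_le h1 continuous_const).inter (isClosed_le h2 continuous_const)

lemma Tube_sub (j : ℕ) : Tube j ⊆ CTube j := fun _ hx => ⟨hx.1.le, hx.2.le⟩

lemma mem_interior_KK {x : E} (h1 : ∀ i, |x i| < 1) (h2 : x 2 ≠ 0) (h3 : ∀ j, x ∉ CTube j) :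
    x ∈ interior KK := by
  have hQo : IsOpen {z : E | ∀ i, |z i| < 1} := by
    have : {z : E | ∀ i, |z i| < 1} = ⋂ i, {z : E | |z i| < 1} := by ext; simp
    rw [this]
    exact isOpen_iInter_of_finite fun i => isOpen_lt (cont_coord i).abs continuous_const
  rw [mem_interior]
  rcases lt_or_gt_of_ne h2 with h | h
  · refine ⟨{z : E | ∀ i, |z i| < 1} ∩ {z : E | z 2 < 0}, ?_, hQo.inter isOpen_down, h1, h⟩
    rintro z ⟨hz1, hz2⟩
    refine ⟨fun i => (hz1 i).le, ?_⟩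
    rw [mem_iUnion]
    rintro ⟨j, hj⟩
    have := (abs_lt.mp hj.2).1
    have := tt_pos j
    simp only [mem_ofPred_eq] at hz2
    linarith
  · obtain ⟨J, hJ⟩ := (tt_tendsto.eventually (gt_mem_nhds (by positivity : (0:ℝ) < x 2 / 4))).exists
    have hU : IsOpen (⋂ j ∈ Finset.range J, (CTube j)ᶜ) :=
      isOpen_biInter_finset fun j _ => (isClosed_CTube j).isOpen_compl
    have hV : IsOpen {z : E | x 2 / 2 < z 2} := isOpen_lt continuous_const (cont_coord 2)
    refine ⟨({z : E | ∀ i, |z i| < 1} ∩ {z : E | x 2 / 2 < z 2}) ∩ ⋂ j ∈ Finset.range J, (CTube j)ᶜ,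
      ?_, (hQo.inter hV).inter hU, ⟨h1, ?_⟩, ?_⟩
    · rintro z ⟨⟨hz1, hz2⟩, hz3⟩
      refine ⟨fun i => (hz1 i).le, ?_⟩
      rw [mem_iUnion]
      rintro ⟨j, hj⟩
      by_cases hjJ : j < J
      · simp only [mem_iInter, Finset.mem_range, mem_compl_iff] at hz3
        exact hz3 j hjJ (Tube_sub j hj)
      · have h4 := tt_anti (not_lt.mp hjJ)
        have h5 := (abs_lt.mp hj.2).2
        simp only [mem_ofPred_eq] at hz2
        linarith
    · simp only [mem_ofPred_eq]; linarith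
    · simp only [mem_iInter, Finset.mem_range, mem_compl_iff]
      exact fun j _ => h3 j

lemma seg_coord (a : E) (ℓ s : ℝ) : (a + (ℓ * s) • e0) 0 = a 0 + ℓ * s ∧
    (a + (ℓ * s) • e0) 1 = a 1 ∧ (a + (ℓ * s) • e0) 2 = a 2 := by
  simp [e0]

lemma seg_in {x a : E} {δ ℓ : ℝ} {P : Set E} (hℓ : 0 ≤ ℓ)
    (hd : |a 0 - x 0| + ℓ + |a 1 - x 1| + |a 2 - x 2| < δ)
    (hP : ∀ z : E, a 0 ≤ z 0 → z 0 ≤ a 0 + ℓ → z 1 = a 1 → z 2 = a 2 → z ∈ P) :
    seg a ℓ ⊆ ball x δ ∩ P := by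
  rintro _ ⟨s, hs, rfl⟩
  obtain ⟨c0, c1, c2⟩ := seg_coord a ℓ s
  have hs0 : 0 ≤ ℓ * s := mul_nonneg hℓ hs.1
  have hs1 : ℓ * s ≤ ℓ := mul_le_of_le_one_right hℓ hs.2
  refine ⟨?_, hP _ (by simp only [c0]; linarith) (by simp only [c0]; linarith) c1 c2⟩
  rw [mem_ball, dist_eq_norm]
  refine (norm_le_sum _).trans_lt ?_
  have d0 : (a + (ℓ * s) • e0 - x) 0 = (a 0 - x 0) + ℓ * s := by
    rw [PiLp.sub_apply, c0]; ring
  have d1 : (a + (ℓ * s) • e0 - x) 1 = a 1 - x 1 := by rw [PiLp.sub_apply, c1]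
  have d2 : (a + (ℓ * s) • e0 - x) 2 = a 2 - x 2 := by rw [PiLp.sub_apply, c2]
  rw [d0, d1, d2]
  have := abs_add_le (a 0 - x 0) (ℓ * s)
  rw [abs_of_nonneg hs0] at this
  linarith

/-- Near every boundary point the complement contains long segments. -/
theorem exists_seg {x : E} (hx : x ∈ frontier KK) {δ : ℝ} (hδ : 0 < δ) :
    ∃ a : E, seg a (δ / 4) ⊆ ball x δ \ KK := by
  rw [isCompact_KK.isClosed.frontier_eq] at hx
  obtain ⟨hxK, hxi⟩ := hx
  have hℓ : 0 ≤ δ / 4 := by positivity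
  suffices h : ∃ (a : E) (P : Set E), P ⊆ KKᶜ ∧ seg a (δ / 4) ⊆ ball x δ ∩ P by
    obtain ⟨a, P, hP, ha⟩ := h
    exact ⟨a, fun z hz => ⟨(ha hz).1, hP (ha hz).2⟩⟩
  have hTube : ∀ j, Tube j ⊆ KKᶜ := fun j z hz hzK => hzK.2 (mem_iUnion.mpr ⟨j, hz⟩)
  have hQc : Qᶜ ⊆ KKᶜ := fun z hz hzK => hz hzK.1
  by_cases h2 : x 2 = 0
  · obtain ⟨j, hj1, hj2⟩ := exists_tube (x 1) (by positivity : (0:ℝ) < δ / 4)
    refine ⟨WithLp.toLp 2 ![x 0, yy j, tt j], Tube j, hTube j, seg_in hℓ ?_ ?_⟩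
    · have e0 : (WithLp.toLp 2 ![x 0, yy j, tt j] : E) 0 = x 0 := rfl
      have e1 : (WithLp.toLp 2 ![x 0, yy j, tt j] : E) 1 = yy j := rfl
      have e2 : (WithLp.toLp 2 ![x 0, yy j, tt j] : E) 2 = tt j := rfl
      rw [e0, e1, e2, h2, sub_self, sub_zero, abs_zero, abs_of_pos (tt_pos j)]
      linarith
    · intro z _ _ hz1 hz2
      have e1 : (WithLp.toLp 2 ![x 0, yy j, tt j] : E) 1 = yy j := rfl
      have e2 : (WithLp.toLp 2 ![x 0, yy j, tt j] : E) 2 = tt j := rfl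
      rw [e1] at hz1
      rw [e2] at hz2
      have := tt_pos j
      exact ⟨by rw [hz1, sub_self, abs_zero]; positivity, by rw [hz2, sub_self, abs_zero]; positivity⟩
  by_cases h1 : ∀ i, |x i| < 1
  · -- the boundary of a tube
    obtain ⟨j, hj⟩ : ∃ j, x ∈ CTube j := by
      by_contra hcon
      push Not at hcon
      exact hxi (mem_interior_KK h1 h2 hcon)
    have ht := tt_pos j
    set θ : ℝ := δ / (tt j + δ) with hθ
    have hθ0 : 0 < θ := by positivity
    have hθ1 : θ < 1 := by rw [hθ, div_lt_one (by positivity)]; linarith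
    have hθt : θ * tt j ≤ δ := by
      rw [hθ, div_mul_eq_mul_div, div_le_iff₀ (by positivity)]
      nlinarith
    refine ⟨WithLp.toLp 2 ![x 0, x 1 + θ * (yy j - x 1), x 2 + θ * (tt j - x 2)], Tube j, hTube j,
      seg_in hℓ ?_ ?_⟩
    · have e0 : (WithLp.toLp 2 ![x 0, x 1 + θ * (yy j - x 1), x 2 + θ * (tt j - x 2)] : E) 0 = x 0 := rfl
      have e1 : (WithLp.toLp 2 ![x 0, x 1 + θ * (yy j - x 1), x 2 + θ * (tt j - x 2)] : E) 1 =
        x 1 + θ * (yy j - x 1) := rfl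
      have e2 : (WithLp.toLp 2 ![x 0, x 1 + θ * (yy j - x 1), x 2 + θ * (tt j - x 2)] : E) 2 =
        x 2 + θ * (tt j - x 2) := rfl
      rw [e0, e1, e2, sub_self, abs_zero, add_sub_cancel_left, add_sub_cancel_left, abs_mul, abs_mul,
        abs_of_pos hθ0, abs_sub_comm (yy j), abs_sub_comm (tt j)]
      have a1 := mul_le_mul_of_nonneg_left hj.1 hθ0.le
      have a2 := mul_le_mul_of_nonneg_left hj.2 hθ0.le
      linarith
    · intro z _ _ hz1 hz2
      have e1 : (WithLp.toLp 2 ![x 0, x 1 + θ * (yy j - x 1), x 2 + θ * (tt j - x 2)] : E) 1 =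
        x 1 + θ * (yy j - x 1) := rfl
      have e2 : (WithLp.toLp 2 ![x 0, x 1 + θ * (yy j - x 1), x 2 + θ * (tt j - x 2)] : E) 2 =
        x 2 + θ * (tt j - x 2) := rfl
      rw [e1] at hz1
      rw [e2] at hz2
      have a3 : ∀ u v : ℝ, |u - v| ≤ tt j / 4 → |u + θ * (v - u) - v| < tt j / 4 := by
        intro u v huv
        have : u + θ * (v - u) - v = (1 - θ) * (u - v) := by ring
        rw [this, abs_mul, abs_of_pos (by linarith)]
        have := mul_le_mul_of_nonneg_left huv (by linarith : 0 ≤ 1 - θ)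
        nlinarith
      exact ⟨by rw [hz1]; exact a3 _ _ hj.1, by rw [hz2]; exact a3 _ _ hj.2⟩
  · -- the boundary of the cube
    push Not at h1
    obtain ⟨i, hi⟩ := h1
    have hval : ∀ k : Fin 3, 1 ≤ |x k| → 1 ≤ x k ∨ x k ≤ -1 := fun k hk => by
      rcases le_abs.mp hk with h | h
      · exact Or.inl h
      · exact Or.inr (by linarith)
    have hnQ : ∀ (z : E) (k : Fin 3), 1 < |z k| → z ∈ Qᶜ := fun z k hk hz => by
      have := hz k; linarith
    have hcase : (1 ≤ x 0 ∨ x 0 ≤ -1) ∨ (1 ≤ x 1 ∨ x 1 ≤ -1) ∨ (1 ≤ x 2 ∨ x 2 ≤ -1) := by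
      fin_cases i
      · exact Or.inl (hval 0 hi)
      · exact Or.inr (Or.inl (hval 1 hi))
      · exact Or.inr (Or.inr (hval 2 hi))
    -- general translation
    have gen : ∀ u v w : ℝ, |u| + |v| + |w| ≤ δ / 2 + δ / 8 →
        (∀ z : E, x 0 + u ≤ z 0 → z 0 ≤ x 0 + u + δ / 4 → z 1 = x 1 + v → z 2 = x 2 + w → z ∈ Qᶜ) →
        ∃ (a : E) (P : Set E), P ⊆ KKᶜ ∧ seg a (δ / 4) ⊆ ball x δ ∩ P := by
      intro u v w huvw hz
      refine ⟨WithLp.toLp 2 ![x 0 + u, x 1 + v, x 2 + w], Qᶜ, hQc, seg_in hℓ ?_ ?_⟩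
      · have e0 : (WithLp.toLp 2 ![x 0 + u, x 1 + v, x 2 + w] : E) 0 = x 0 + u := rfl
        have e1 : (WithLp.toLp 2 ![x 0 + u, x 1 + v, x 2 + w] : E) 1 = x 1 + v := rfl
        have e2 : (WithLp.toLp 2 ![x 0 + u, x 1 + v, x 2 + w] : E) 2 = x 2 + w := rfl
        rw [e0, e1, e2, add_sub_cancel_left, add_sub_cancel_left, add_sub_cancel_left]
        linarith
      · intro z h0 h0' h1 h2
        exact hz z h0 h0' h1 h2
    have hd4 : (0:ℝ) < δ / 4 := by positivity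
    have hd2 : (0:ℝ) < δ / 2 := by positivity
    rcases hcase with (h | h) | (h | h) | (h | h)
    · refine gen (δ / 4) 0 0 (by rw [abs_of_pos hd4, abs_zero]; linarith) ?_
      intro z hz _ _ _
      exact hnQ z 0 (lt_of_lt_of_le (by linarith) (le_abs_self _))
    · refine gen (-(δ / 2)) 0 0 (by rw [abs_neg, abs_of_pos hd2, abs_zero]; linarith) ?_
      intro z _ hz _ _
      refine hnQ z 0 (lt_of_lt_of_le ?_ (neg_le_abs _))
      linarith
    · refine gen 0 (δ / 4) 0 (by rw [abs_of_pos hd4, abs_zero]; linarith) ?_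
      intro z _ _ hz _
      exact hnQ z 1 (lt_of_lt_of_le (by linarith) (le_abs_self _))
    · refine gen 0 (-(δ / 4)) 0 (by rw [abs_neg, abs_of_pos hd4, abs_zero]; linarith) ?_
      intro z _ _ hz _
      exact hnQ z 1 (lt_of_lt_of_le (by linarith) (neg_le_abs _))
    · refine gen 0 0 (δ / 4) (by rw [abs_of_pos hd4, abs_zero]; linarith) ?_
      intro z _ _ _ hz
      exact hnQ z 2 (lt_of_lt_of_le (by linarith) (le_abs_self _))
    · refine gen 0 0 (-(δ / 4)) (by rw [abs_neg, abs_of_pos hd4, abs_zero]; linarith) ?_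
      intro z _ _ _ hz
      exact hnQ z 2 (lt_of_lt_of_le (by linarith) (neg_le_abs _))

theorem capacityCondition {q : ℝ} (hq : 3 < q) : CapacityCondition (ENNReal.ofReal q) KK := by
  intro x hx
  obtain ⟨κ, hκ, hlow⟩ := cap_segment hq
  obtain ⟨C, hC, hup⟩ := capTilde_le hq
  have hq0 : 0 < q := by linarith
  set d : ℝ := 1 - 3 / q with hd
  set ρ : ℝ := κ * (1/4) ^ d / C with hρ
  have hρ0 : 0 < ρ := by positivity
  have key : ∀ δ : ℝ, 0 < δ → ENNReal.ofReal ρ ≤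
      cap (ENNReal.ofReal q) (ball x δ \ KK) / capTilde (ENNReal.ofReal q) (ball x δ \ interior KK) := by
    intro δ hδ
    obtain ⟨a, ha⟩ := exists_seg hx hδ
    have h1 := hlow a (δ / 4) (by positivity) _ ha
    have h2 := hup x δ hδ (ball x δ \ interior KK) sdiff_subset
    have h3 : ENNReal.ofReal (κ * (δ / 4) ^ d) / ENNReal.ofReal (C * δ ^ d) ≤
        cap (ENNReal.ofReal q) (ball x δ \ KK) / capTilde (ENNReal.ofReal q) (ball x δ \ interior KK) :=
      ENNReal.div_le_div h1 h2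
    refine le_trans (le_of_eq ?_) h3
    rw [← ENNReal.ofReal_div_of_pos (by positivity)]
    congr 1
    rw [hρ, div_eq_mul_one_div δ 4, Real.mul_rpow hδ.le (by norm_num)]
    have : 0 < δ ^ d := by positivity
    field_simp
  refine lt_of_lt_of_le (ENNReal.ofReal_pos.mpr hρ0) ?_
  refine le_liminf_of_le (by isBoundedDefault) ?_
  filter_upwards [self_mem_nhdsWithin] with δ hδ
  exact key δ hδ

end Pool.Agent.Lib.MP_fe4d92_an
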