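import Pool.Agent.Lib.MP_fe4d92_an.Pairing

/-!
The indicator function of the half space cannot be approximated on the compact set.
-/

namespace Pool.Agent.Lib.MP_fe4d92_an

open MeasureTheory Set Filter Topology Metric InnerProductSpace Laplacian
open scoped ENNReal ContDiff

/-- The compact set. -/
def KK : Set E := Q \ ⋃ j, Tube j

/-- The cube minus the first tubes. -/
def KN (N : ℕ) : Set E := Q \ ⋃ j ∈ Finset.range N, Tube j

lemma isOpen_Tube (j : ℕ) : IsOpen (Tube j) := by
  unfold Tube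
  have h1 : Continuous (fun x : E => |x 1 - yy j|) := ((cont_coord 1).sub continuous_const).abs
  have h2 : Continuous (fun x : E => |x 2 - tt j|) := ((cont_coord 2).sub continuous_const).abs
  exact (isOpen_lt h1 continuous_const).inter (isOpen_lt h2 continuous_const)

lemma isCompact_KK : IsCompact KK := by
  unfold KK
  rw [sdiff_eq]
  exact isCompact_Q.inter_right (isOpen_iUnion fun j => isOpen_Tube j).isClosed_compl

lemma isCompact_KN (N : ℕ) : IsCompact (KN N) := by
  unfold KN
  rw [sdiff_eq]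
  exact isCompact_Q.inter_right (isOpen_biUnion fun j _ => isOpen_Tube j).isClosed_compl

lemma KN_anti : Antitone KN := by
  intro m n hmn
  unfold KN
  apply sdiff_subset_sdiff_right
  apply biUnion_subset_biUnion_left
  intro j hj
  simp only [Finset.coe_range, mem_Iio] at hj ⊢
  omega

lemma iInter_KN : ⋂ N, KN N = KK := by
  ext x
  simp only [KN, KK, mem_iInter, Set.mem_sdiff, mem_iUnion, Finset.mem_range, not_exists, exists_prop,
    not_and]
  constructor
  · intro h
    exact ⟨(h 0).1, fun j => (h (j + 1)).2 j (by omega)⟩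
  · intro h N
    exact ⟨h.1, fun j _ => h.2 j⟩

lemma KK_subset (N : ℕ) : KK ⊆ KN N := by
  rw [← iInter_KN]; exact iInter_subset _ N

lemma diff_subset_tubes (N : ℕ) {x : E} (hx : x ∈ KN N \ KK) : ∃ j, N ≤ j ∧ x ∈ Tube j := by
  obtain ⟨h1, h2⟩ := hx
  unfold KK at h2
  unfold KN at h1
  simp only [Set.mem_sdiff, mem_iUnion, not_and, Finset.mem_range, exists_prop, not_exists] at h1 h2
  obtain ⟨j, hj⟩ : ∃ j, x ∈ Tube j := by
    by_contra hcon
    push Not at hcon
    exact h2 h1.1 hcon
  refine ⟨j, ?_, hj⟩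
  by_contra hcon
  exact h1.2 j (by omega) hj

lemma tsupport_phi (N : ℕ) : tsupport (phi N) ⊆ KN N := by
  refine closure_minimal (fun x hx => ?_) (isCompact_KN N).isClosed
  refine ⟨?_, ?_⟩
  · by_contra h
    exact hx (phi_zero_off (not_Q h))
  · intro h
    simp only [mem_iUnion, Finset.mem_range, exists_prop] at h
    obtain ⟨j, hj, hxj⟩ := h
    exact hx (phi_tube hj hxj)

lemma tendsto_diff : Tendsto (fun N => volume (KN N \ KK)) atTop (𝓝 0) := by
  have h1 : ⋂ N, (KN N \ KK) = ∅ := by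
    ext x
    simp only [mem_iInter, Set.mem_sdiff, mem_empty_iff_false, iff_false, not_forall]
    by_contra hcon
    push Not at hcon
    have h3 : x ∈ ⋂ N, KN N := mem_iInter.mpr fun N => (hcon N).1
    rw [iInter_KN] at h3
    exact (hcon 0).2 h3
  have h2 := tendsto_measure_iInter_atTop (μ := (volume : Measure E)) (s := fun N => KN N \ KK)
    (fun N => ((isCompact_KN N).measurableSet.diff isCompact_KK.measurableSet).nullMeasurableSet)
    (fun m n hmn => sdiff_subset_sdiff_left (KN_anti hmn))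
    ⟨0, ((measure_mono sdiff_subset).trans_lt (isCompact_KN 0).measure_lt_top).ne⟩
  rw [h1, measure_empty] at h2
  exact h2

/-- There are tubes of large index at prescribed lateral position. -/
lemma exists_tube_near (c : ℝ) {r : ℝ} (hr : 0 < r) (J : ℕ) : ∃ j, J ≤ j ∧ |yy j - c| < r := by
  have h1 : DenseRange (TopologicalSpace.denseSeq ℝ) := TopologicalSpace.denseRange_denseSeq ℝ
  set S : Set ℝ := (fun j => yy j) '' (Iio J) with hS
  have hfin : S.Finite := (finite_Iio J).image _
  have hopen : IsOpen (ball c r \ S) := isOpen_ball.sdiff hfin.isClosed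
  have hne : (ball c r \ S).Nonempty := by
    have : (ball c r).Infinite := by
      rw [Real.ball_eq_Ioo]
      exact Ioo_infinite (by linarith)
    exact (this.sdiff hfin).nonempty
  obtain ⟨j, hj⟩ := h1.exists_mem_open hopen hne
  refine ⟨j, ?_, ?_⟩
  · by_contra hcon
    exact hj.2 ⟨j, by simpa using hcon, rfl⟩
  · have := hj.1
    rw [mem_ball, Real.dist_eq] at this
    exact this

lemma tt_tendsto : Tendsto tt atTop (𝓝 0) := by
  unfold tt
  exact (tendsto_pow_atTop_nhds_zero_of_lt_one (by norm_num) (by norm_num)).comp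
    (tendsto_add_atTop_nat 1)

lemma tt_anti {i j : ℕ} (h : i ≤ j) : tt j ≤ tt i := by
  unfold tt
  exact pow_le_pow_of_le_one (by norm_num) (by norm_num) (by omega)

lemma exists_tube (c : ℝ) {r : ℝ} (hr : 0 < r) : ∃ j, tt j < r ∧ |yy j - c| < r := by
  obtain ⟨J, hJ⟩ := (tt_tendsto.eventually (gt_mem_nhds hr)).exists
  obtain ⟨j, hj, hjc⟩ := exists_tube_near c hr J
  exact ⟨j, (tt_anti hj).trans_lt hJ, hjc⟩

lemma norm_le_sum (x : E) : ‖x‖ ≤ |x 0| + |x 1| + |x 2| := by
  rw [EuclideanSpace.norm_eq, Fin.sum_univ_three]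
  apply Real.sqrt_le_iff.mpr
  refine ⟨by positivity, ?_⟩
  simp only [Real.norm_eq_abs]
  nlinarith [abs_nonneg (x 0), abs_nonneg (x 1), abs_nonneg (x 2), mul_nonneg (abs_nonneg (x 0)) (abs_nonneg (x 1)),
    mul_nonneg (abs_nonneg (x 0)) (abs_nonneg (x 2)), mul_nonneg (abs_nonneg (x 1)) (abs_nonneg (x 2))]

/-- The plane `x 2 = 0` does not meet the interior of the compact set. -/
lemma interior_off {x : E} (hx : x ∈ interior KK) : x 2 ≠ 0 := by
  intro h0
  obtain ⟨r, hr, hb⟩ := Metric.isOpen_iff.mp isOpen_interior x hx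
  obtain ⟨j, hj1, hj2⟩ := exists_tube (x 1) (half_pos hr)
  set z : E := WithLp.toLp 2 ![x 0, yy j, tt j] with hz
  have hz0 : z 0 = x 0 := rfl
  have hz1 : z 1 = yy j := rfl
  have hz2 : z 2 = tt j := rfl
  have hmem : z ∈ ball x r := by
    rw [mem_ball, dist_eq_norm]
    refine (norm_le_sum _).trans_lt ?_
    have e0 : (z - x) 0 = 0 := by simp [hz0]
    have e1 : (z - x) 1 = yy j - x 1 := by simp [hz1]
    have e2 : (z - x) 2 = tt j := by simp [hz2, h0]
    rw [e0, e1, e2, abs_of_pos (tt_pos j)]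
    simp only [abs_zero]
    linarith
  have h1 := interior_subset (hb hmem)
  apply h1.2
  rw [mem_iUnion]
  refine ⟨j, ?_, ?_⟩
  · rw [hz1, sub_self, abs_zero]; have := tt_pos j; linarith
  · rw [hz2, sub_self, abs_zero]; have := tt_pos j; linarith

lemma hs_sol : hs ∈ Sol (interior KK) := by
  refine ⟨interior KK, isOpen_interior, Subset.rfl, ?_, ?_⟩
  · intro x hx
    have h1 := interior_off hx
    have h2 : ContDiffAt ℝ ∞ hs x := by
      rcases lt_or_gt_of_ne h1 with h | h
      · have h3 : hs =ᶠ[𝓝 x] fun _ => (0:ℝ) := by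
          filter_upwards [isOpen_down.mem_nhds h] with y hy using hs_nonpos (le_of_lt hy)
        exact contDiffAt_const.congr_of_eventuallyEq h3
      · have h3 : hs =ᶠ[𝓝 x] fun _ => (1:ℝ) := by
          filter_upwards [isOpen_up.mem_nhds h] with y hy using hs_pos hy
        exact contDiffAt_const.congr_of_eventuallyEq h3
    exact h2.contDiffWithinAt
  · intro x hx
    have h1 := interior_off hx
    rcases lt_or_gt_of_ne h1 with h | h
    · have h3 : hs =ᶠ[𝓝 x] fun _ => (0:ℝ) := by
        filter_upwards [isOpen_down.mem_nhds h] with y hy using hs_nonpos (le_of_lt hy)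
      rw [(laplacian_congr_nhds h3).self_of_nhds]; simp
    · have h3 : hs =ᶠ[𝓝 x] fun _ => (1:ℝ) := by
        filter_upwards [isOpen_up.mem_nhds h] with y hy using hs_pos hy
      rw [(laplacian_congr_nhds h3).self_of_nhds]; simp

lemma hs_loc (p : ℝ≥0∞) : LocLq p hs := by
  intro M hM
  have : IsFiniteMeasure ((volume : Measure E).restrict M) := ⟨by
    rw [Measure.restrict_apply MeasurableSet.univ, univ_inter]; exact hM.measure_lt_top⟩
  exact MemLp.of_bound hs_measurable.aestronglyMeasurable 1 (Eventually.of_forall fun x => hs_abs_le x)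

lemma hs_tilde {q : ℝ} (hq : 1 ≤ q) : TildeLq (ENNReal.ofReal q) hs := by
  refine ⟨hs_loc _, fun M hM ε hε => ?_⟩
  have h1 : (1 : ℝ≥0∞) ≤ ENNReal.ofReal q := by
    rw [← ENNReal.ofReal_one]; exact ENNReal.ofReal_le_ofReal hq
  obtain ⟨ε', hε', hε'2⟩ : ∃ ε' : ℝ, 0 < ε' ∧ ENNReal.ofReal ε' < ε := by
    obtain ⟨r, hr0, hr⟩ := ENNReal.lt_iff_exists_real_btwn.mp hε
    refine ⟨r, ?_, hr.2⟩
    exact ENNReal.ofReal_pos.mp hr.1
  have : IsFiniteMeasure ((volume : Measure E).restrict M) := ⟨by
    rw [Measure.restrict_apply MeasurableSet.univ, univ_inter]; exact hM.measure_lt_top⟩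
  obtain ⟨g, hg1, hg2, hg3⟩ := MemLp.exist_eLpNorm_sub_le ENNReal.ofReal_ne_top h1 (hs_loc _ M hM) hε'
  exact ⟨g, hg2, lt_of_le_of_lt hg3 hε'2⟩

end Pool.Agent.Lib.MP_fe4d92_an
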