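import Mathlib

/-!
One-dimensional building blocks: a bump function, its rescalings, and derivative bounds.
-/

namespace Pool.Agent.Lib.MP_fe4d92_an

open MeasureTheory Set Filter Topology Metric
open scoped ENNReal ContDiff

/-- Bump function on the line: `1` on `[-1/4, 1/4]`, `0` off `(-1/2, 1/2)`. -/
noncomputable def ab : ContDiffBump (0 : ℝ) := ⟨1/4, 1/2, by norm_num, by norm_num⟩

/-- The bump function. -/
noncomputable def al (r : ℝ) : ℝ := ab r

lemma al_smooth : ContDiff ℝ ∞ al := ab.contDiff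

lemma al_nonneg (r : ℝ) : 0 ≤ al r := ab.nonneg

lemma al_le_one (r : ℝ) : al r ≤ 1 := ab.le_one

lemma al_one {r : ℝ} (h : |r| ≤ 1/4) : al r = 1 := by
  apply ab.one_of_mem_closedBall
  rw [mem_closedBall, dist_zero_right, Real.norm_eq_abs]
  exact h

lemma al_zero {r : ℝ} (h : 1/2 ≤ |r|) : al r = 0 := by
  apply ab.zero_of_le_dist
  rw [dist_zero_right, Real.norm_eq_abs]
  exact h

lemma al_abs_le (r : ℝ) : |al r| ≤ 1 := by
  rw [abs_of_nonneg (al_nonneg r)]; exact al_le_one r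

lemma al_compact : HasCompactSupport al := ab.hasCompactSupport

lemma c2_deriv {G : ℝ → ℝ} (hG : ContDiff ℝ 2 G) : ContDiff ℝ 1 (deriv G) := by
  have h3 : ((1 : WithTop ℕ∞) + 1) = 2 := by norm_num
  rw [← h3] at hG
  exact (contDiff_succ_iff_deriv.mp hG).2.2

lemma cinf_deriv {G : ℝ → ℝ} (hG : ContDiff ℝ ∞ G) : ContDiff ℝ ∞ (deriv G) :=
  (contDiff_infty_iff_deriv.mp hG).2

/-- A common bound for the bump function and its first two derivatives. -/
lemma exists_D : ∃ D : ℝ, 1 ≤ D ∧ (∀ r, |deriv al r| ≤ D) ∧ ∀ r, |deriv (deriv al) r| ≤ D := by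
  have h1 : Continuous (deriv al) := (cinf_deriv al_smooth).continuous
  have h2 : Continuous (deriv (deriv al)) := (cinf_deriv (cinf_deriv al_smooth)).continuous
  obtain ⟨D1, hD1⟩ := al_compact.deriv.exists_bound_of_continuous h1
  obtain ⟨D2, hD2⟩ := al_compact.deriv.deriv.exists_bound_of_continuous h2
  refine ⟨max 1 (max D1 D2), le_max_left _ _, fun r => ?_, fun r => ?_⟩
  · exact (hD1 r).trans ((le_max_left _ _).trans (le_max_right _ _))
  · exact (hD2 r).trans ((le_max_right _ _).trans (le_max_right _ _))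

/-- Rescaled bump. -/
noncomputable def als (y t r : ℝ) : ℝ := al ((r - y) / t)

lemma als_smooth (y t : ℝ) : ContDiff ℝ ∞ (als y t) := by
  unfold als
  exact al_smooth.comp (by fun_prop)

lemma deriv_als (y t r : ℝ) : deriv (als y t) r = t⁻¹ * deriv al ((r - y) / t) := by
  have h1 : HasDerivAt (fun r : ℝ => (r - y) / t) (t⁻¹) r := by
    have := ((hasDerivAt_id r).sub_const y).div_const t
    simpa using this
  have h2 : HasDerivAt al (deriv al ((r - y) / t)) ((r - y) / t) :=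
    ((al_smooth.differentiable (by norm_num)) _).hasDerivAt
  have h3 := h2.comp r h1
  have h4 : deriv (als y t) r = _ := h3.deriv
  rw [h4, mul_comm]

lemma deriv2_als (y t r : ℝ) : deriv (deriv (als y t)) r = t⁻¹ ^ 2 * deriv (deriv al) ((r - y) / t) := by
  have h0 : deriv (als y t) = fun r => t⁻¹ * deriv al ((r - y) / t) := by
    ext1 r; exact deriv_als y t r
  rw [h0]
  have h1 : HasDerivAt (fun r : ℝ => (r - y) / t) (t⁻¹) r := by
    have := ((hasDerivAt_id r).sub_const y).div_const t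
    simpa using this
  have h2 : HasDerivAt (deriv al) (deriv (deriv al) ((r - y) / t)) ((r - y) / t) :=
    (((cinf_deriv al_smooth).differentiable (by norm_num)) _).hasDerivAt
  have h3 := (h2.comp r h1).const_mul (t⁻¹)
  have h4 : deriv (fun r => t⁻¹ * deriv al ((r - y) / t)) r = _ := h3.deriv
  rw [h4]
  ring

lemma deriv2_mul {u v : ℝ → ℝ} (hu : ContDiff ℝ 2 u) (hv : ContDiff ℝ 2 v) (r : ℝ) :
    deriv (deriv (fun r => u r * v r)) r =
      deriv (deriv u) r * v r + 2 * (deriv u r * deriv v r) + u r * deriv (deriv v) r := by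
  have du : Differentiable ℝ u := hu.differentiable (by norm_num)
  have dv : Differentiable ℝ v := hv.differentiable (by norm_num)
  have du' : Differentiable ℝ (deriv u) := (c2_deriv hu).differentiable (by norm_num)
  have dv' : Differentiable ℝ (deriv v) := (c2_deriv hv).differentiable (by norm_num)
  have h0 : deriv (fun r => u r * v r) = fun r => deriv u r * v r + u r * deriv v r := by
    ext1 r
    exact ((du r).hasDerivAt.mul (dv r).hasDerivAt).deriv
  rw [h0]
  have h1 := (((du' r).hasDerivAt.mul (dv r).hasDerivAt).add ((du r).hasDerivAt.mul (dv' r).hasDerivAt)).deriv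
  have h2 : deriv (fun r => deriv u r * v r + u r * deriv v r) r = _ := h1
  rw [h2]
  ring

/-- The factor in the middle coordinate. -/
noncomputable def Bf (y t r : ℝ) : ℝ := al r * als y t r

/-- The normal profile of the main term. -/
noncomputable def gf (r : ℝ) : ℝ := al r * r

/-- The factor in the normal coordinate. -/
noncomputable def Cf (t r : ℝ) : ℝ := gf r * als t t r

lemma gf_smooth : ContDiff ℝ ∞ gf := by
  unfold gf
  exact al_smooth.mul contDiff_id

lemma Bf_smooth (y t : ℝ) : ContDiff ℝ ∞ (Bf y t) := al_smooth.mul (als_smooth y t)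

lemma Cf_smooth (t : ℝ) : ContDiff ℝ ∞ (Cf t) := gf_smooth.mul (als_smooth t t)

lemma two_le_inf : (2 : WithTop ℕ∞) ≤ (∞ : WithTop ℕ∞) := by norm_cast

lemma deriv_gf (r : ℝ) : deriv gf r = deriv al r * r + al r := by
  have h1 : HasDerivAt al (deriv al r) r := ((al_smooth.differentiable (by norm_num)) r).hasDerivAt
  have h2 := (h1.mul (hasDerivAt_id r)).deriv
  have h3 : deriv gf r = _ := h2
  rw [h3]
  simp

lemma deriv2_gf (r : ℝ) : deriv (deriv gf) r = deriv (deriv al) r * r + 2 * deriv al r := by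
  have h := deriv2_mul (u := al) (v := fun r => r) (al_smooth.of_le two_le_inf) contDiff_id r
  have h0 : deriv (deriv gf) r = _ := h
  rw [h0]
  have h1 : deriv (fun r : ℝ => r) = fun _ => (1:ℝ) := by
    ext1 r; simp
  rw [h1]
  simp

lemma Bf_abs_le (y t r : ℝ) : |Bf y t r| ≤ 1 := by
  unfold Bf als
  rw [abs_mul]
  exact mul_le_one₀ (al_abs_le _) (abs_nonneg _) (al_abs_le _)

lemma Bf_deriv2_le {D : ℝ} (hD : 1 ≤ D) (h1 : ∀ r, |deriv al r| ≤ D)
    (h2 : ∀ r, |deriv (deriv al) r| ≤ D) {y t : ℝ} (ht : 0 < t) (ht1 : t ≤ 1) (r : ℝ) :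
    |deriv (deriv (Bf y t)) r| ≤ 4 * D ^ 2 * t⁻¹ ^ 2 := by
  have h := deriv2_mul (u := al) (v := als y t) (al_smooth.of_le two_le_inf)
    ((als_smooth y t).of_le two_le_inf) r
  have h0 : deriv (deriv (Bf y t)) r = _ := h
  rw [h0, deriv_als, deriv2_als]
  have hti : 1 ≤ t⁻¹ := (one_le_inv₀ ht).mpr ht1
  have a1 : |deriv (deriv al) r * als y t r| ≤ D * 1 := by
    rw [abs_mul]; exact mul_le_mul (h2 r) (al_abs_le _) (abs_nonneg _) (by linarith)
  have a2 : |2 * (deriv al r * (t⁻¹ * deriv al ((r - y) / t)))| ≤ 2 * (D * (t⁻¹ * D)) := by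
    rw [abs_mul, abs_mul, abs_mul, abs_of_pos (by norm_num : (0:ℝ) < 2), abs_of_pos (by positivity : 0 < t⁻¹)]
    refine mul_le_mul_of_nonneg_left ?_ (by norm_num)
    exact mul_le_mul (h1 r) (mul_le_mul_of_nonneg_left (h1 _) (by positivity)) (by positivity) (by linarith)
  have a3 : |al r * (t⁻¹ ^ 2 * deriv (deriv al) ((r - y) / t))| ≤ 1 * (t⁻¹ ^ 2 * D) := by
    rw [abs_mul, abs_mul, abs_of_pos (by positivity : 0 < t⁻¹ ^ 2)]
    exact mul_le_mul (al_abs_le r) (mul_le_mul_of_nonneg_left (h2 _) (by positivity)) (by positivity) zero_le_one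
  have habs := (abs_add_three (deriv (deriv al) r * als y t r)
    (2 * (deriv al r * (t⁻¹ * deriv al ((r - y) / t))))
    (al r * (t⁻¹ ^ 2 * deriv (deriv al) ((r - y) / t))))
  refine habs.trans ?_
  have b1 : D * 1 ≤ D ^ 2 * t⁻¹ ^ 2 := by
    have : (1:ℝ) ≤ t⁻¹ ^ 2 := one_le_pow₀ hti
    nlinarith [mul_le_mul hD this zero_le_one (by linarith : (0:ℝ) ≤ D)]
  have b2 : 2 * (D * (t⁻¹ * D)) ≤ 2 * (D ^ 2 * t⁻¹ ^ 2) := by
    have : t⁻¹ ≤ t⁻¹ ^ 2 := by nlinarith
    have : D ^ 2 * t⁻¹ ≤ D ^ 2 * t⁻¹ ^ 2 := mul_le_mul_of_nonneg_left this (by positivity)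
    nlinarith
  have b3 : 1 * (t⁻¹ ^ 2 * D) ≤ D ^ 2 * t⁻¹ ^ 2 := by
    have : D ≤ D ^ 2 := by nlinarith
    have := mul_le_mul_of_nonneg_right this (by positivity : (0:ℝ) ≤ t⁻¹ ^ 2)
    linarith
  linarith

lemma als_zero {y t r : ℝ} (ht : 0 < t) (h : t / 2 ≤ |r - y|) : als y t r = 0 := by
  unfold als
  apply al_zero
  rw [abs_div, abs_of_pos ht, le_div_iff₀ ht]
  linarith

lemma als_one {y t r : ℝ} (ht : 0 < t) (h : |r - y| ≤ t / 4) : als y t r = 1 := by
  unfold als
  apply al_one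
  rw [abs_div, abs_of_pos ht, div_le_iff₀ ht]
  linarith

lemma Cf_abs_le {t : ℝ} (ht : 0 < t) (r : ℝ) : |Cf t r| ≤ 3 / 2 * t := by
  by_cases h : t / 2 ≤ |r - t|
  · unfold Cf; rw [als_zero ht h, mul_zero, abs_zero]; positivity
  · rw [not_le] at h
    have hr : |r| ≤ 3 / 2 * t := by
      have := abs_lt.mp h
      rw [abs_le]; constructor <;> linarith
    unfold Cf gf als
    rw [abs_mul, abs_mul]
    calc |al r| * |r| * |al ((r - t) / t)| ≤ 1 * (3 / 2 * t) * 1 := by
          refine mul_le_mul (mul_le_mul (al_abs_le _) hr (abs_nonneg _) zero_le_one) (al_abs_le _)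
            (abs_nonneg _) (by positivity)
      _ = _ := by ring

lemma Cf_deriv2_le {D : ℝ} (hD : 1 ≤ D) (h1 : ∀ r, |deriv al r| ≤ D)
    (h2 : ∀ r, |deriv (deriv al) r| ≤ D) {t : ℝ} (ht : 0 < t) (ht1 : t ≤ 1) (r : ℝ) :
    |deriv (deriv (Cf t)) r| ≤ 12 * D ^ 2 * t⁻¹ := by
  by_cases hr0 : t / 2 < |r - t|
  · -- zero near r
    have hev : Cf t =ᶠ[𝓝 r] fun _ => (0:ℝ) := by
      have : ∀ᶠ s in 𝓝 r, t / 2 < |s - t| := by
        have hc : Continuous (fun s : ℝ => |s - t|) := by fun_prop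
        exact hc.continuousAt.eventually (lt_mem_nhds hr0)
      filter_upwards [this] with s hs
      unfold Cf; rw [als_zero ht hs.le, mul_zero]
    have h3 : deriv (Cf t) =ᶠ[𝓝 r] fun _ => (0:ℝ) := by
      have := hev.deriv
      refine this.trans ?_
      exact Eventually.of_forall fun s => by simp
    rw [h3.deriv_eq]
    simp only [deriv_const, abs_zero]
    positivity
  · rw [not_lt] at hr0
    have hr : |r| ≤ 3 / 2 * t := by
      have := abs_le.mp hr0
      rw [abs_le]; constructor <;> linarith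
    have hr1 : |r| ≤ 3 / 2 := hr.trans (by linarith)
    have h := deriv2_mul (u := gf) (v := als t t) (gf_smooth.of_le two_le_inf)
      ((als_smooth t t).of_le two_le_inf) r
    have h0 : deriv (deriv (Cf t)) r = _ := h
    rw [h0, deriv_als, deriv2_als, deriv_gf, deriv2_gf]
    have hti : 1 ≤ t⁻¹ := (one_le_inv₀ ht).mpr ht1
    have hD0 : 0 ≤ D := by linarith
    have g0 : |gf r| ≤ 3 / 2 * t := by
      unfold gf
      rw [abs_mul]
      calc |al r| * |r| ≤ 1 * (3 / 2 * t) := mul_le_mul (al_abs_le r) hr (abs_nonneg _) zero_le_one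
        _ = _ := one_mul _
    have g1 : |deriv al r * r + al r| ≤ 3 * D := by
      refine (abs_add_le _ _).trans ?_
      rw [abs_mul]
      have := mul_le_mul (h1 r) hr1 (abs_nonneg _) hD0
      have := al_abs_le r
      linarith
    have g2 : |deriv (deriv al) r * r + 2 * deriv al r| ≤ 4 * D := by
      refine (abs_add_le _ _).trans ?_
      rw [abs_mul, abs_mul, abs_of_pos (by norm_num : (0:ℝ) < 2)]
      have := mul_le_mul (h2 r) hr1 (abs_nonneg _) hD0
      have := h1 r
      linarith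
    have a1 : |(deriv (deriv al) r * r + 2 * deriv al r) * als t t r| ≤ 4 * D * 1 := by
      rw [abs_mul]; exact mul_le_mul g2 (al_abs_le _) (abs_nonneg _) (by linarith)
    have a2 : |2 * ((deriv al r * r + al r) * (t⁻¹ * deriv al ((r - t) / t)))| ≤ 2 * (3 * D * (t⁻¹ * D)) := by
      rw [abs_mul, abs_mul, abs_mul, abs_of_pos (by norm_num : (0:ℝ) < 2), abs_of_pos (by positivity : 0 < t⁻¹)]
      refine mul_le_mul_of_nonneg_left ?_ (by norm_num)
      exact mul_le_mul g1 (mul_le_mul_of_nonneg_left (h1 _) (by positivity)) (by positivity) (by linarith)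
    have a3 : |gf r * (t⁻¹ ^ 2 * deriv (deriv al) ((r - t) / t))| ≤ 3 / 2 * t * (t⁻¹ ^ 2 * D) := by
      rw [abs_mul, abs_mul, abs_of_pos (by positivity : 0 < t⁻¹ ^ 2)]
      exact mul_le_mul g0 (mul_le_mul_of_nonneg_left (h2 _) (by positivity)) (by positivity) (by positivity)
    refine (abs_add_three _ _ _).trans ?_
    have b3 : 3 / 2 * t * (t⁻¹ ^ 2 * D) = 3 / 2 * (t⁻¹ * D) := by
      field_simp
    rw [b3] at a3
    have c1 : D ≤ D ^ 2 * t⁻¹ := by nlinarith [mul_le_mul hD hti zero_le_one hD0]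
    have c2 : D * (t⁻¹ * D) = D ^ 2 * t⁻¹ := by ring
    have c3 : t⁻¹ * D ≤ D ^ 2 * t⁻¹ := by
      have : D ≤ D ^ 2 := by nlinarith
      have := mul_le_mul_of_nonneg_right this (by positivity : (0:ℝ) ≤ t⁻¹)
      linarith
    have c4 : 2 * (3 * D * (t⁻¹ * D)) = 6 * (D ^ 2 * t⁻¹) := by ring
    nlinarith

end Pool.Agent.Lib.MP_fe4d92_an
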