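import Pool.Agent.Lib.MP_fe4d92_an.Pieces

/-!
Pairing the functional with the indicator function of a half space.
-/

namespace Pool.Agent.Lib.MP_fe4d92_an

open MeasureTheory Set Filter Topology Metric InnerProductSpace Laplacian
open scoped ENNReal ContDiff
open Pool.Agent.Lib.MP_9aae89_an (coord_mp)

/-- The indicator function of the upper half space. -/
noncomputable def hs (x : E) : ℝ := (Ioi (0:ℝ)).indicator (fun _ => 1) (x 2)

lemma hs_measurable : Measurable hs := by
  unfold hs
  exact (measurable_const.indicator measurableSet_Ioi).comp (cont_coord 2).measurable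

lemma hs_pos {x : E} (h : 0 < x 2) : hs x = 1 := by
  unfold hs; rw [indicator_of_mem (mem_Ioi.mpr h)]

lemma hs_nonpos {x : E} (h : x 2 ≤ 0) : hs x = 0 := by
  unfold hs
  rw [indicator_of_notMem]
  simpa using h

lemma hs_abs_le (x : E) : |hs x| ≤ 1 := by
  rcases lt_or_ge 0 (x 2) with h | h
  · rw [hs_pos h]; simp
  · rw [hs_nonpos h]; simp

lemma isOpen_up : IsOpen {x : E | 0 < x 2} := isOpen_lt continuous_const (cont_coord 2)

lemma isOpen_down : IsOpen {x : E | x 2 < 0} := isOpen_lt (cont_coord 2) continuous_const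

lemma integrable_pr {A B C : ℝ → ℝ} (hA : Integrable A) (hB : Integrable B) (hC : Integrable C) :
    Integrable (pr A B C) (volume : Measure E) := by
  have h1 : Integrable (fun p : ℝ × ℝ × ℝ => A p.1 * (B p.2.1 * C p.2.2)) volume := by
    have h8 : (volume : Measure (ℝ × ℝ)) = (volume : Measure ℝ).prod volume := rfl
    have h9 : (volume : Measure (ℝ × ℝ × ℝ)) = (volume : Measure ℝ).prod volume := rfl
    have h2 : Integrable (fun p : ℝ × ℝ => B p.1 * C p.2) volume := by
      rw [h8]; exact hB.mul_prod hC
    rw [h9]; exact hA.mul_prod h2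
  have h3 := (coord_mp.integrable_comp h1.aestronglyMeasurable).mpr h1
  refine h3.congr (Eventually.of_forall fun x => ?_)
  simp only [Function.comp, pr]
  ring

lemma int_deriv2_zero {G : ℝ → ℝ} (hG : ContDiff ℝ ∞ G) (hc : HasCompactSupport G) :
    ∫ t, deriv (deriv G) t = 0 := by
  have h1 := cinf_deriv hG
  have h2 := cinf_deriv h1
  refine integral_eq_zero_of_hasDerivAt_of_integrable (f := deriv G)
    (fun t => ((h1.differentiable (by norm_num)) t).hasDerivAt) ?_ ?_
  · exact h2.continuous.integrable_of_hasCompactSupport hc.deriv.deriv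
  · exact h1.continuous.integrable_of_hasCompactSupport hc.deriv

lemma gf_compact : HasCompactSupport gf := by
  unfold gf
  exact al_compact.mul_right

lemma al_int : Integrable al := al_smooth.continuous.integrable_of_hasCompactSupport al_compact

lemma al_int2 : Integrable (deriv (deriv al)) :=
  (cinf_deriv (cinf_deriv al_smooth)).continuous.integrable_of_hasCompactSupport al_compact.deriv.deriv

lemma int_hs_gf : ∫ t, (Ioi (0:ℝ)).indicator (fun _ => (1:ℝ)) t * deriv (deriv gf) t = -1 := by
  have h1 : ∀ t, (Ioi (0:ℝ)).indicator (fun _ => (1:ℝ)) t * deriv (deriv gf) t =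
      (Ioi (0:ℝ)).indicator (fun t => deriv (deriv gf) t) t := by
    intro t
    by_cases h : t ∈ Ioi (0:ℝ)
    · rw [indicator_of_mem h, indicator_of_mem h, one_mul]
    · rw [indicator_of_notMem h, indicator_of_notMem h, zero_mul]
  simp_rw [h1]
  rw [integral_indicator measurableSet_Ioi]
  have h2 : ContDiff ℝ 1 (deriv gf) := (cinf_deriv gf_smooth).of_le (by norm_num)
  rw [gf_compact.deriv.integral_Ioi_deriv_eq h2 0, deriv_gf]
  have : al 0 = 1 := al_one (by norm_num)
  rw [this]
  simp

theorem int_hs_P0 : ∫ x, hs x * Δ P0 x = -(∫ t, al t) ^ 2 := by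
  set ih : ℝ → ℝ := (Ioi (0:ℝ)).indicator (fun _ => (1:ℝ)) with hih
  have h1 : ∀ x, hs x * Δ P0 x = pr (deriv (deriv al)) al (fun t => ih t * gf t) x +
      pr al (deriv (deriv al)) (fun t => ih t * gf t) x +
      pr al al (fun t => ih t * deriv (deriv gf) t) x := by
    intro x
    unfold P0
    rw [laplacian_pr (al_smooth.of_le two_le_inf) (al_smooth.of_le two_le_inf)
      (gf_smooth.of_le two_le_inf)]
    unfold pr hs
    ring
  have hm : ∀ {G : ℝ → ℝ}, Integrable G → Integrable (fun t => ih t * G t) := by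
    intro G hG
    refine hG.bdd_mul (c := 1) ?_ ?_
    · exact (measurable_const.indicator measurableSet_Ioi).aestronglyMeasurable
    · refine Eventually.of_forall fun t => ?_
      rw [hih]
      by_cases h : t ∈ Ioi (0:ℝ)
      · rw [indicator_of_mem h]; simp
      · rw [indicator_of_notMem h]; simp
  have hg0 : Integrable gf := gf_smooth.continuous.integrable_of_hasCompactSupport gf_compact
  have hg2 : Integrable (deriv (deriv gf)) :=
    (cinf_deriv (cinf_deriv gf_smooth)).continuous.integrable_of_hasCompactSupport gf_compact.deriv.deriv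
  simp_rw [h1]
  have hsum : Integrable (fun x => pr (deriv (deriv al)) al (fun t => ih t * gf t) x +
      pr al (deriv (deriv al)) (fun t => ih t * gf t) x) (volume : Measure E) :=
    (integrable_pr al_int2 al_int (hm hg0)).add (integrable_pr al_int al_int2 (hm hg0))
  rw [integral_add hsum (integrable_pr al_int al_int (hm hg2)),
    integral_add (integrable_pr al_int2 al_int (hm hg0)) (integrable_pr al_int al_int2 (hm hg0)),
    integral_pr, integral_pr, integral_pr, int_deriv2_zero al_smooth al_compact]
  have h3 : ∫ t, ih t * deriv (deriv gf) t = -1 := int_hs_gf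
  rw [h3]
  ring

lemma al_int_pos : 0 < ∫ t, al t := by
  have h1 : ∫ t, (Icc (-(1/4) : ℝ) (1/4)).indicator (fun _ => (1:ℝ)) t ≤ ∫ t, al t := by
    refine integral_mono ?_ al_int fun t => ?_
    · rw [integrable_indicator_iff measurableSet_Icc]
      exact integrableOn_const (by simp)
    · by_cases h : t ∈ Icc (-(1/4) : ℝ) (1/4)
      · rw [indicator_of_mem h, al_one (abs_le.mpr h)]
      · rw [indicator_of_notMem h]; exact al_nonneg t
  rw [integral_indicator measurableSet_Icc] at h1
  have h2 : ∫ t in Icc (-(1/4) : ℝ) (1/4), (1:ℝ) = 1/2 := by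
    simp; norm_num
  rw [h2] at h1
  linarith

theorem int_hs_Pj (j : ℕ) : ∫ x, hs x * Δ (Pj j) x = 0 := by
  have ht := tt_pos j
  have hcd : ContDiffOn ℝ 2 hs {x : E | 0 < x 2} := by
    refine (contDiffOn_const (c := (1:ℝ))).congr fun x hx => ?_
    exact hs_pos hx
  have hsub : tsupport (Pj j) ⊆ {x : E | 0 < x 2} := by
    have h1 : IsClosed {x : E | tt j / 2 ≤ x 2} := isClosed_le continuous_const (cont_coord 2)
    refine (closure_minimal (fun x hx => ?_) h1).trans fun x hx => ?_
    · by_contra hcon
      apply hx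
      apply Pj_zero2
      simp only [mem_ofPred_eq, not_le] at hcon
      rw [le_abs]; right; linarith
    · simp only [mem_ofPred_eq] at hx ⊢
      linarith
  rw [green isOpen_up hcd ((Pj_smooth j).of_le two_le_inf) (Pj_compact j) hsub]
  have h2 : ∀ x, Pj j x * Δ hs x = 0 := by
    intro x
    by_cases hx : x ∈ {x : E | 0 < x 2}
    · have h3 : hs =ᶠ[𝓝 x] fun _ => (1:ℝ) := by
        filter_upwards [isOpen_up.mem_nhds hx] with y hy using hs_pos hy
      rw [(laplacian_congr_nhds h3).self_of_nhds]
      simp
    · have : Pj j x = 0 := image_eq_zero_of_notMem_tsupport fun h => hx (hsub h)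
      rw [this, zero_mul]
  simp_rw [h2]
  simp

lemma cont_lap {f : E → ℝ} (hf : ContDiff ℝ ∞ f) : Continuous (fun y => Δ f y) := by
  have h2 : ∀ y, Δ f y = ∑ i, fderiv ℝ (fun y => fderiv ℝ f y
      (stdOrthonormalBasis ℝ E i)) y (stdOrthonormalBasis ℝ E i) := fun y =>
    laplacian_eq_sum' (hf.contDiffAt.of_le two_le_inf)
  simp_rw [h2]
  refine continuous_finsetSum _ fun i _ => ?_
  have h3 := (contOn_dir isOpen_univ (f := f)
    (hf.of_le two_le_inf).contDiffOn (stdOrthonormalBasis ℝ E i)).2.1
  exact continuousOn_univ.mp h3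

lemma compact_lap {f : E → ℝ} (hf : HasCompactSupport f) : HasCompactSupport (fun y => Δ f y) := by
  refine HasCompactSupport.intro hf.isCompact fun y hy => ?_
  apply lap_zero'
  exact notMem_tsupport_iff_eventuallyEq.mp hy

lemma integrable_hs_lap {f : E → ℝ} (hf : ContDiff ℝ ∞ f) (hc : HasCompactSupport f) :
    Integrable (fun x => hs x * Δ f x) volume := by
  have h1 : Integrable (fun y => Δ f y) volume :=
    (cont_lap hf).integrable_of_hasCompactSupport (compact_lap hc)
  refine h1.bdd_mul (c := 1) hs_measurable.aestronglyMeasurable ?_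
  exact Eventually.of_forall fun x => hs_abs_le x

theorem int_hs_phi (N : ℕ) : ∫ x, hs x * Δ (phi N) x = -(∫ t, al t) ^ 2 := by
  have h1 : ∀ x, hs x * Δ (phi N) x = hs x * Δ P0 x - ∑ j ∈ Finset.range N, hs x * Δ (Pj j) x := by
    intro x
    rw [lap_phi, mul_sub, Finset.mul_sum]
  simp_rw [h1]
  rw [integral_sub (integrable_hs_lap P0_smooth P0_compact)
    (integrable_finsetSum _ fun j _ => integrable_hs_lap (Pj_smooth j) (Pj_compact j)),
    integral_finsetSum _ (fun j _ => integrable_hs_lap (Pj_smooth j) (Pj_compact j)), int_hs_P0]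
  simp_rw [int_hs_Pj]
  simp

end Pool.Agent.Lib.MP_fe4d92_an
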