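import Pool.Agent.Lib.MP_fe4d92_an.ProdLap
import Pool.Agent.Lib.MP_fe4d92_an.OneD
import Pool.Agent.Lib.MP_fe4d92_an.Scale

/-!
The pieces of the annihilating functional.
-/

namespace Pool.Agent.Lib.MP_fe4d92_an

open MeasureTheory Set Filter Topology Metric InnerProductSpace Laplacian
open scoped ENNReal ContDiff
open Pool.Agent.Lib.MP_9aae89_an (coord_mp)

/-- Lateral positions of the tubes. -/
noncomputable def yy (j : ℕ) : ℝ := TopologicalSpace.denseSeq ℝ j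

/-- Heights of the tubes. -/
noncomputable def tt (j : ℕ) : ℝ := (1/16 : ℝ) ^ (j + 1)

lemma tt_pos (j : ℕ) : 0 < tt j := by unfold tt; positivity

lemma tt_le_one (j : ℕ) : tt j ≤ 1 := by
  unfold tt
  exact pow_le_one₀ (by norm_num) (by norm_num)

lemma tt_lt {i j : ℕ} (h : i < j) : tt j ≤ tt i / 16 := by
  unfold tt
  have h1 : (1/16 : ℝ) ^ (j + 1) ≤ (1/16 : ℝ) ^ (i + 1 + 1) :=
    pow_le_pow_of_le_one (by norm_num) (by norm_num) (by omega)
  rw [pow_succ _ (i + 1)] at h1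
  linarith

/-- The main piece. -/
noncomputable def P0 : E → ℝ := pr al al gf

/-- The correction near the `j`-th tube. -/
noncomputable def Pj (j : ℕ) : E → ℝ := pr al (Bf (yy j) (tt j)) (Cf (tt j))

/-- The approximate potentials. -/
noncomputable def phi (N : ℕ) (x : E) : ℝ := P0 x - ∑ j ∈ Finset.range N, Pj j x

/-- The tubes. -/
def Tube (j : ℕ) : Set E := {x | |x 1 - yy j| < tt j / 4 ∧ |x 2 - tt j| < tt j / 4}

/-- The cube. -/
def Q : Set E := {x | ∀ i, |x i| ≤ 1}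

lemma P0_smooth : ContDiff ℝ ∞ P0 := pr_smooth al_smooth al_smooth gf_smooth

lemma Pj_smooth (j : ℕ) : ContDiff ℝ ∞ (Pj j) := pr_smooth al_smooth (Bf_smooth _ _) (Cf_smooth _)

lemma phi_smooth (N : ℕ) : ContDiff ℝ ∞ (phi N) :=
  P0_smooth.sub (ContDiff.sum fun j _ => Pj_smooth j)

lemma P0_zero {x : E} (h : ∃ i, 1/2 ≤ |x i|) : P0 x = 0 := by
  obtain ⟨i, hi⟩ := h
  unfold P0 pr gf
  fin_cases i
  · simp only [Fin.zero_eta] at hi; rw [al_zero hi]; ring
  · simp only [Fin.mk_one] at hi; rw [al_zero hi]; ring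
  · have h2 : 1/2 ≤ |x 2| := hi
    rw [al_zero h2]; ring

lemma Pj_zero {j : ℕ} {x : E} (h : ∃ i, 1/2 ≤ |x i|) : Pj j x = 0 := by
  obtain ⟨i, hi⟩ := h
  unfold Pj pr Bf Cf gf
  fin_cases i
  · simp only [Fin.zero_eta] at hi; rw [al_zero hi]; ring
  · simp only [Fin.mk_one] at hi; rw [al_zero hi]; ring
  · have h2 : 1/2 ≤ |x 2| := hi
    rw [al_zero h2]; ring

lemma Pj_zero1 {j : ℕ} {x : E} (h : tt j / 2 ≤ |x 1 - yy j|) : Pj j x = 0 := by
  unfold Pj pr Bf
  rw [als_zero (tt_pos j) h]; ring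

lemma Pj_zero2 {j : ℕ} {x : E} (h : tt j / 2 ≤ |x 2 - tt j|) : Pj j x = 0 := by
  unfold Pj pr Cf
  rw [als_zero (tt_pos j) h]; ring

lemma cont_coord (i : Fin 3) : Continuous (fun x : E => x i) := (co i).continuous

lemma isCompact_Q : IsCompact Q := by
  have h1 : Q = (EuclideanSpace.equiv (Fin 3) ℝ).toHomeomorph ⁻¹' (Icc (fun _ => (-1:ℝ)) (fun _ => 1)) := by
    ext x
    simp only [Q, mem_preimage, mem_Icc, Pi.le_def, mem_ofPred_eq, abs_le, forall_and]
    rfl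
  rw [h1]
  exact (EuclideanSpace.equiv (Fin 3) ℝ).toHomeomorph.isCompact_preimage.mpr isCompact_Icc

lemma not_Q {x : E} (h : x ∉ Q) : ∃ i, 1/2 ≤ |x i| := by
  unfold Q at h
  simp only [mem_ofPred_eq, not_forall, not_le] at h
  obtain ⟨i, hi⟩ := h
  exact ⟨i, by linarith⟩

lemma P0_compact : HasCompactSupport P0 :=
  HasCompactSupport.intro isCompact_Q fun _ hx => P0_zero (not_Q hx)

lemma Pj_compact (j : ℕ) : HasCompactSupport (Pj j) :=
  HasCompactSupport.intro isCompact_Q fun _ hx => Pj_zero (not_Q hx)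

lemma phi_zero_off {N : ℕ} {x : E} (h : ∃ i, 1/2 ≤ |x i|) : phi N x = 0 := by
  unfold phi
  rw [P0_zero h, Finset.sum_eq_zero (fun j _ => Pj_zero h), sub_zero]

lemma phi_compact (N : ℕ) : HasCompactSupport (phi N) :=
  HasCompactSupport.intro isCompact_Q fun _ hx => phi_zero_off (not_Q hx)

/-- `φ_N` vanishes on the first `N` tubes. -/
lemma phi_tube {N j : ℕ} (hj : j < N) {x : E} (hx : x ∈ Tube j) : phi N x = 0 := by
  have h1 := tt_pos j
  obtain ⟨ha, hb⟩ := hx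
  have hb' := abs_lt.mp hb
  have key : Pj j x = P0 x := by
    unfold Pj P0 pr Bf Cf
    rw [als_one h1 ha.le, als_one h1 hb.le]; ring
  have key2 : ∀ i ∈ Finset.range N, i ≠ j → Pj i x = 0 := by
    intro i _ hij
    apply Pj_zero2
    have h2 := tt_pos i
    rcases lt_or_gt_of_ne hij with h | h
    · have h3 := tt_lt h
      rw [le_abs]; right; linarith
    · have h3 := tt_lt h
      rw [le_abs]; left; linarith
  unfold phi
  rw [Finset.sum_eq_single_of_mem j (Finset.mem_range.mpr hj) key2, key, sub_self]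

lemma lap_zero' {f : E → ℝ} {y : E} (h : ∀ᶠ z in 𝓝 y, f z = 0) : Δ f y = 0 := by
  have h5 : f =ᶠ[𝓝 y] fun _ => (0:ℝ) := h
  rw [(laplacian_congr_nhds h5).self_of_nhds]
  simp

lemma ev_coord {i : Fin 3} {c : ℝ} {y : E} (h : c < |y i|) : ∀ᶠ z in 𝓝 y, c < |z i| := by
  have hc : Continuous (fun s : E => |s i|) := (cont_coord i).abs
  exact hc.continuousAt.eventually (lt_mem_nhds h)

lemma ev_coord' {i : Fin 3} {c d : ℝ} {y : E} (h : c < |y i - d|) : ∀ᶠ z in 𝓝 y, c < |z i - d| := by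
  have hc : Continuous (fun s : E => |s i - d|) := ((cont_coord i).sub continuous_const).abs
  exact hc.continuousAt.eventually (lt_mem_nhds h)

/-- The box carrying the Laplacian of `P0`. -/
def Bx0 : Set E := {x : E | x 0 ∈ Icc (-(1/2) : ℝ) (1/2) ∧ x 1 ∈ Icc (-(1/2) : ℝ) (1/2) ∧ x 2 ∈ Icc (-(1/2) : ℝ) (1/2)}

/-- The box carrying the Laplacian of `Pj`. -/
def Bx (j : ℕ) : Set E := {x : E | x 0 ∈ Icc (-(1/2) : ℝ) (1/2) ∧ x 1 ∈ Icc (yy j - tt j / 2) (yy j + tt j / 2) ∧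
  x 2 ∈ Icc (tt j - tt j / 2) (tt j + tt j / 2)}

lemma vol_Bx (j : ℕ) : volume (Bx j) = ENNReal.ofReal (tt j ^ 2) := by
  unfold Bx
  rw [volume_box _ _ _ measurableSet_Icc measurableSet_Icc measurableSet_Icc]
  simp only [Real.volume_Icc]
  rw [← ENNReal.ofReal_mul (by have := tt_pos j; linarith), ← ENNReal.ofReal_mul (by norm_num)]
  congr 1
  ring

lemma vol_Bx0 : volume Bx0 = 1 := by
  unfold Bx0
  rw [volume_box _ _ _ measurableSet_Icc measurableSet_Icc measurableSet_Icc]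
  simp only [Real.volume_Icc]
  norm_num

lemma meas_box (a b c d e f : ℝ) :
    MeasurableSet {x : E | x 0 ∈ Icc a b ∧ x 1 ∈ Icc c d ∧ x 2 ∈ Icc e f} := by
  have h : ∀ i : Fin 3, ∀ a b : ℝ, MeasurableSet {x : E | x i ∈ Icc a b} := fun i a b =>
    (cont_coord i).measurable measurableSet_Icc
  exact (h 0 a b).inter ((h 1 c d).inter (h 2 e f))

lemma meas_Bx (j : ℕ) : MeasurableSet (Bx j) := meas_box _ _ _ _ _ _

lemma meas_Bx0 : MeasurableSet Bx0 := meas_box _ _ _ _ _ _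

lemma lapP0_zero {x : E} (h : x ∉ Bx0) : Δ P0 x = 0 := by
  apply lap_zero'
  have h1 : ∃ i, 1/2 < |x i| := by
    by_contra hcon
    push Not at hcon
    apply h
    have h0 := abs_le.mp (hcon 0)
    have h1 := abs_le.mp (hcon 1)
    have h2 := abs_le.mp (hcon 2)
    exact ⟨⟨h0.1, h0.2⟩, ⟨h1.1, h1.2⟩, ⟨h2.1, h2.2⟩⟩
  obtain ⟨i, hi⟩ := h1
  filter_upwards [ev_coord hi] with z hz
  exact P0_zero ⟨i, hz.le⟩

lemma lapPj_zero {j : ℕ} {x : E} (h : x ∉ Bx j) : Δ (Pj j) x = 0 := by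
  apply lap_zero'
  by_cases h0 : 1/2 < |x 0|
  · filter_upwards [ev_coord h0] with z hz
    exact Pj_zero ⟨0, hz.le⟩
  by_cases h1 : tt j / 2 < |x 1 - yy j|
  · filter_upwards [ev_coord' h1] with z hz
    exact Pj_zero1 hz.le
  by_cases h2 : tt j / 2 < |x 2 - tt j|
  · filter_upwards [ev_coord' h2] with z hz
    exact Pj_zero2 hz.le
  exfalso
  apply h
  rw [not_lt] at h0 h1 h2
  have h0 := abs_le.mp h0
  have h1 := abs_le.mp h1
  have h2 := abs_le.mp h2
  refine ⟨⟨h0.1, h0.2⟩, ⟨by linarith, by linarith⟩, ⟨by linarith, by linarith⟩⟩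

/-- Bounds for the Laplacians of the pieces. -/
lemma exists_bounds : ∃ M : ℝ, 0 < M ∧ (∀ x, |Δ P0 x| ≤ M) ∧ ∀ j x, |Δ (Pj j) x| ≤ M * (tt j)⁻¹ := by
  obtain ⟨D, hD, h1, h2⟩ := exists_D
  have hD0 : 0 < D := by linarith
  have hc : Continuous (fun y => Δ P0 y) := by
    have h2 : ∀ y, Δ P0 y = ∑ i, fderiv ℝ (fun y => fderiv ℝ P0 y
        (stdOrthonormalBasis ℝ E i)) y (stdOrthonormalBasis ℝ E i) := fun y =>
      laplacian_eq_sum' (P0_smooth.contDiffAt.of_le two_le_inf)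
    simp_rw [h2]
    refine continuous_finsetSum _ fun i _ => ?_
    have h3 := (contOn_dir isOpen_univ (f := P0)
      (P0_smooth.of_le two_le_inf).contDiffOn (stdOrthonormalBasis ℝ E i)).2.1
    exact continuousOn_univ.mp h3
  have hcs : HasCompactSupport (fun y => Δ P0 y) := by
    refine HasCompactSupport.intro isCompact_Q fun y hy => ?_
    apply lapP0_zero
    intro hmem
    obtain ⟨i, hi⟩ : ∃ i, 1 < |y i| := by
      unfold Q at hy
      simpa using hy
    have h0 := hmem.1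
    have h1 := hmem.2.1
    have h2 := hmem.2.2
    have : |y i| ≤ 1/2 := by
      fin_cases i
      · exact abs_le.mpr h0
      · exact abs_le.mpr h1
      · exact abs_le.mpr h2
    linarith
  obtain ⟨M0, hM0⟩ := hcs.exists_bound_of_continuous hc
  refine ⟨max |M0| (20 * D ^ 3) + 1, by positivity, fun x => ?_, fun j x => ?_⟩
  · have := hM0 x
    rw [Real.norm_eq_abs] at this
    exact this.trans ((le_abs_self _).trans ((le_max_left _ _).trans (by linarith)))
  · have ht := tt_pos j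
    have ht1 := tt_le_one j
    set t := tt j
    have hti : 1 ≤ t⁻¹ := (one_le_inv₀ ht).mpr ht1
    unfold Pj
    rw [laplacian_pr (al_smooth.of_le two_le_inf) ((Bf_smooth _ _).of_le two_le_inf)
      ((Cf_smooth _).of_le two_le_inf)]
    have b1 := Bf_abs_le (yy j) t (x 1)
    have b2 := Bf_deriv2_le hD h1 h2 (y := yy j) ht ht1 (x 1)
    have c1 := Cf_abs_le ht (x 2)
    have c2 := Cf_deriv2_le hD h1 h2 ht ht1 (x 2)
    have a1 := al_abs_le (x 0)
    have a2 := h2 (x 0)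
    refine (abs_add_three _ _ _).trans ?_
    rw [abs_mul, abs_mul, abs_mul, abs_mul, abs_mul, abs_mul]
    have e1 : |deriv (deriv al) (x 0)| * |Bf (yy j) t (x 1)| * |Cf t (x 2)| ≤ D * 1 * (3 / 2 * t) :=
      mul_le_mul (mul_le_mul a2 b1 (abs_nonneg _) hD0.le) c1 (abs_nonneg _) (by positivity)
    have e2 : |al (x 0)| * |deriv (deriv (Bf (yy j) t)) (x 1)| * |Cf t (x 2)| ≤
        1 * (4 * D ^ 2 * t⁻¹ ^ 2) * (3 / 2 * t) :=
      mul_le_mul (mul_le_mul a1 b2 (abs_nonneg _) zero_le_one) c1 (abs_nonneg _) (by positivity)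
    have e3 : |al (x 0)| * |Bf (yy j) t (x 1)| * |deriv (deriv (Cf t)) (x 2)| ≤ 1 * 1 * (12 * D ^ 2 * t⁻¹) :=
      mul_le_mul (mul_le_mul a1 b1 (abs_nonneg _) zero_le_one) c2 (abs_nonneg _) (by norm_num)
    have e4 : 1 * (4 * D ^ 2 * t⁻¹ ^ 2) * (3 / 2 * t) = 6 * D ^ 2 * t⁻¹ := by field_simp; ring
    have hD2 : D ^ 2 ≤ D ^ 3 := by nlinarith [sq_nonneg D]
    have hD1 : D ≤ D ^ 3 := by nlinarith [sq_nonneg D]
    have e5 : D * 1 * (3 / 2 * t) ≤ 3 / 2 * D ^ 3 * t⁻¹ := by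
      have : t ≤ t⁻¹ := by linarith
      have := mul_le_mul hD1 this ht.le (by positivity)
      linarith
    have e6 : D ^ 2 * t⁻¹ ≤ D ^ 3 * t⁻¹ := mul_le_mul_of_nonneg_right hD2 (by positivity)
    have e7 : 20 * D ^ 3 * t⁻¹ ≤ (max |M0| (20 * D ^ 3) + 1) * t⁻¹ := by
      refine mul_le_mul_of_nonneg_right ?_ (by positivity)
      have := le_max_right |M0| (20 * D ^ 3)
      linarith
    have e8 : 0 ≤ D ^ 3 * t⁻¹ := by positivity
    nlinarith

lemma lap_phi (N : ℕ) (x : E) : Δ (phi N) x = Δ P0 x - ∑ j ∈ Finset.range N, Δ (Pj j) x := by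
  have hP0 : ContDiffAt ℝ 2 P0 x := P0_smooth.contDiffAt.of_le two_le_inf
  have hPj : ∀ j, ContDiffAt ℝ 2 (Pj j) x := fun j => (Pj_smooth j).contDiffAt.of_le two_le_inf
  induction N with
  | zero =>
    have : phi 0 = P0 := by ext1 y; simp [phi]
    rw [this]; simp
  | succ N ih =>
    have h1 : phi (N + 1) = phi N - Pj N := by
      ext1 y
      simp only [phi, Pi.sub_apply, Finset.sum_range_succ]
      ring
    rw [h1, ContDiffAt.laplacian_sub ((phi_smooth N).contDiffAt.of_le two_le_inf) (hPj N), ih,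
      Finset.sum_range_succ]
    ring

/-- On the later tubes only the main piece contributes. -/
lemma lap_phi_tube {N j : ℕ} (hj : N ≤ j) {x : E} (hx : x ∈ Tube j) : Δ (phi N) x = Δ P0 x := by
  rw [lap_phi, Finset.sum_eq_zero, sub_zero]
  intro i hi
  rw [Finset.mem_range] at hi
  apply lapPj_zero
  intro hmem
  have h1 := hmem.2.2.1
  have h2 := (abs_lt.mp hx.2).2
  have h3 := tt_lt (lt_of_lt_of_le hi hj)
  have h4 := tt_pos i
  have h5 := tt_pos j
  linarith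

end Pool.Agent.Lib.MP_fe4d92_an
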