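import Pool.Agent.Lib.MP_fe4d92_an.Defs
import Pool.Agent.Lib.MP_fe4d92_an.Green
import Pool.Agent.Lib.MP_9aae89_an.Layer

/-!
Laplacian and integrals of products of functions of one coordinate.
-/

namespace Pool.Agent.Lib.MP_fe4d92_an

open MeasureTheory Set Filter Topology Metric InnerProductSpace Laplacian
open scoped ENNReal ContDiff
open Pool.Agent.Lib.MP_9aae89_an (coord_mp)

/-- Product function. -/
def pr (A B C : ℝ → ℝ) (x : E) : ℝ := A (x 0) * B (x 1) * C (x 2)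

/-- The coordinate functional. -/
noncomputable def co (i : Fin 3) : E →L[ℝ] ℝ := EuclideanSpace.proj i

@[simp] lemma co_apply (i : Fin 3) (x : E) : co i x = x i := rfl

lemma pr_smooth {n : WithTop ℕ∞} {A B C : ℝ → ℝ} (hA : ContDiff ℝ n A) (hB : ContDiff ℝ n B)
    (hC : ContDiff ℝ n C) : ContDiff ℝ n (pr A B C) := by
  unfold pr
  have h : ∀ i : Fin 3, ContDiff ℝ n (fun x : E => x i) := fun i => (co i).contDiff
  exact ((hA.comp (h 0)).mul (hB.comp (h 1))).mul (hC.comp (h 2))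

lemma hasFDerivAt_pr {A B C : ℝ → ℝ} (hA : Differentiable ℝ A) (hB : Differentiable ℝ B)
    (hC : Differentiable ℝ C) (x : E) :
    HasFDerivAt (pr A B C) ((deriv A (x 0) * B (x 1) * C (x 2)) • co 0 +
      (A (x 0) * deriv B (x 1) * C (x 2)) • co 1 + (A (x 0) * B (x 1) * deriv C (x 2)) • co 2) x := by
  have h : ∀ (i : Fin 3) {G : ℝ → ℝ}, Differentiable ℝ G →
      HasFDerivAt (fun x : E => G (x i)) (deriv G (x i) • co i) x := by
    intro i G hG
    exact (hG (x i)).hasDerivAt.comp_hasFDerivAt x (co i).hasFDerivAt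
  have h1 := ((h 0 hA).mul (h 1 hB)).mul (h 2 hC)
  convert! h1 using 1
  ext v
  simp only [add_apply, smul_apply, co_apply, smul_eq_mul, Pi.mul_apply]
  ring

lemma laplacian_pr {A B C : ℝ → ℝ} (hA : ContDiff ℝ 2 A) (hB : ContDiff ℝ 2 B)
    (hC : ContDiff ℝ 2 C) (x : E) :
    Δ (pr A B C) x = deriv (deriv A) (x 0) * B (x 1) * C (x 2) +
      A (x 0) * deriv (deriv B) (x 1) * C (x 2) + A (x 0) * B (x 1) * deriv (deriv C) (x 2) := by
  have dA : Differentiable ℝ A := hA.differentiable (by norm_num)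
  have dB : Differentiable ℝ B := hB.differentiable (by norm_num)
  have dC : Differentiable ℝ C := hC.differentiable (by norm_num)
  have c2 : ∀ {G : ℝ → ℝ}, ContDiff ℝ 2 G → Differentiable ℝ (deriv G) := by
    intro G hG
    have : ContDiff ℝ 1 (deriv G) := by
      have h3 : ((1 : WithTop ℕ∞) + 1) = 2 := by norm_num
      rw [← h3] at hG
      exact (contDiff_succ_iff_deriv.mp hG).2.2
    exact this.differentiable (by norm_num)
  rw [laplacian_eq_iteratedFDeriv_orthonormalBasis (pr A B C) (EuclideanSpace.basisFun (Fin 3) ℝ)]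
  simp only [iteratedFDeriv_two_apply]
  have h1 : fderiv ℝ (pr A B C) = fun x => (pr (deriv A) B C x) • co 0 +
      (pr A (deriv B) C x) • co 1 + (pr A B (deriv C) x) • co 2 := by
    ext1 x; exact (hasFDerivAt_pr dA dB dC x).fderiv
  rw [h1]
  have e0 := hasFDerivAt_pr (c2 hA) dB dC x
  have e1 := hasFDerivAt_pr dA (c2 hB) dC x
  have e2 := hasFDerivAt_pr dA dB (c2 hC) x
  have h2 := ((e0.smul_const (co 0)).add (e1.smul_const (co 1))).add (e2.smul_const (co 2))
  rw [Fin.sum_univ_three]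
  have h3 : fderiv ℝ (fun x => (pr (deriv A) B C x) • co 0 +
      (pr A (deriv B) C x) • co 1 + (pr A B (deriv C) x) • co 2) x = _ := h2.fderiv
  rw [h3]
  simp [co]

lemma integral_pr (A B C : ℝ → ℝ) :
    ∫ x : E, pr A B C x = (∫ t, A t) * ((∫ t, B t) * ∫ t, C t) := by
  unfold pr
  have h1 : ∫ x : E, A (x 0) * B (x 1) * C (x 2) =
      ∫ p : ℝ × ℝ × ℝ, A p.1 * (B p.2.1 * C p.2.2) := by
    have hme : MeasurableEmbedding (fun Y : E => ((Y 0, (Y 1, Y 2)) : ℝ × ℝ × ℝ)) := by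
      have h3 : MeasurableEmbedding (fun Y : E => (Y : Fin 3 → ℝ)) :=
        (MeasurableEquiv.toLp 2 (Fin 3 → ℝ)).symm.measurableEmbedding
      have h4 : MeasurableEmbedding (MeasurableEquiv.piFinSuccAbove (fun _ : Fin 3 => ℝ) 0) :=
        (MeasurableEquiv.piFinSuccAbove (fun _ : Fin 3 => ℝ) 0).measurableEmbedding
      have h5 : MeasurableEmbedding (Prod.map (id : ℝ → ℝ)
          (MeasurableEquiv.finTwoArrow : (Fin 2 → ℝ) ≃ᵐ ℝ × ℝ)) :=
        ((MeasurableEquiv.refl ℝ).prodCongr MeasurableEquiv.finTwoArrow).measurableEmbedding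
      exact h5.comp (h4.comp h3)
    have h2 := coord_mp.integral_comp hme (fun p : ℝ × ℝ × ℝ => A p.1 * (B p.2.1 * C p.2.2))
    rw [← h2]
    congr 1
    ext1 x
    ring
  rw [h1]
  have h6 := integral_prod_mul (μ := (volume : Measure ℝ)) (ν := (volume : Measure (ℝ × ℝ)))
    A (fun p : ℝ × ℝ => B p.1 * C p.2)
  have h7 := integral_prod_mul (μ := (volume : Measure ℝ)) (ν := (volume : Measure ℝ)) B C
  have h8 : (volume : Measure (ℝ × ℝ)) = (volume : Measure ℝ).prod volume := rfl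
  have h9 : (volume : Measure (ℝ × ℝ × ℝ)) = (volume : Measure ℝ).prod volume := rfl
  rw [h9, h6, h8, h7]

/-- Volume of a coordinate box. -/
lemma volume_box (S0 S1 S2 : Set ℝ) (h0 : MeasurableSet S0) (h1 : MeasurableSet S1)
    (h2 : MeasurableSet S2) :
    volume {x : E | x 0 ∈ S0 ∧ x 1 ∈ S1 ∧ x 2 ∈ S2} = volume S0 * (volume S1 * volume S2) := by
  have h3 : {x : E | x 0 ∈ S0 ∧ x 1 ∈ S1 ∧ x 2 ∈ S2} =
      (fun Y : E => ((Y 0, (Y 1, Y 2)) : ℝ × ℝ × ℝ)) ⁻¹' (S0 ×ˢ (S1 ×ˢ S2)) := by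
    ext x; simp
  rw [h3, coord_mp.measure_preimage (h0.prod (h1.prod h2)).nullMeasurableSet]
  have h8 : (volume : Measure (ℝ × ℝ)) = (volume : Measure ℝ).prod volume := rfl
  have h9 : (volume : Measure (ℝ × ℝ × ℝ)) = (volume : Measure ℝ).prod volume := rfl
  rw [h9, Measure.prod_prod, h8, Measure.prod_prod]

end Pool.Agent.Lib.MP_fe4d92_an
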