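import Pool.Agent.Lib.MP_fe4d92_an.FundSol
import Pool.Agent.Lib.MP_fe4d92_an.Scale

/-!
The Newtonian potential of a segment belongs to `L^q` for every `q > 3`.
-/

namespace Pool.Agent.Lib.MP_fe4d92_an

open MeasureTheory Set Filter Topology Metric InnerProductSpace Laplacian
open scoped ENNReal ContDiff
open Pool.Agent.Lib.MP_9aae89_an

/-- The first coordinate vector. -/
noncomputable def e0 : E := EuclideanSpace.single 0 1

/-- Potential of the unit segment. -/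
noncomputable def U1 (x : E) : ℝ := ∫ s in Icc (0:ℝ) 1, Phi (x - s • e0)

lemma norm_e0 : ‖e0‖ = 1 := by simp [e0]

lemma measurable_Phi : Measurable Phi := by
  unfold Phi
  fun_prop

lemma stronglyMeasurable_U1 : StronglyMeasurable U1 := by
  unfold U1
  have h : StronglyMeasurable (Function.uncurry fun (x : E) (s : ℝ) => Phi (x - s • e0)) := by
    apply Measurable.stronglyMeasurable
    apply measurable_Phi.comp
    fun_prop
  exact h.integral_prod_right

lemma abs_coord_le (x : E) (i : Fin 3) : |x i| ≤ ‖x‖ := by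
  rw [← Real.norm_eq_abs]
  exact PiLp.norm_apply_le x i

/-- The one-dimensional singular weight. -/
noncomputable def f1 (a t : ℝ) : ℝ≥0∞ := if |t| ≤ 1 then ENNReal.ofReal (|t| ^ (a - 1)) else 0

lemma f1_lt_top {a : ℝ} (ha : 0 < a) : ∫⁻ t, f1 a t < (⊤ : ℝ≥0∞) := by
  have h1 : IntegrableOn (fun t : ℝ => t ^ (a - 1)) (Ioc 0 1) := by
    have := intervalIntegral.intervalIntegrable_rpow' (a := 0) (b := 1) (r := a - 1) (by linarith)
    rwa [intervalIntegrable_iff_integrableOn_Ioc_of_le zero_le_one] at this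
  have h2 : IntegrableOn (fun t : ℝ => if t ≤ 1 then t ^ (a - 1) else 0) (Ioi 0) := by
    rw [← Ioc_union_Ioi_eq_Ioi (zero_le_one : (0:ℝ) ≤ 1)]
    refine IntegrableOn.union ?_ ?_
    · refine h1.congr_fun (fun t ht => ?_) measurableSet_Ioc
      simp [ht.2]
    · have h0 : IntegrableOn (fun _ : ℝ => (0:ℝ)) (Ioi 1) := integrableOn_zero
      refine h0.congr_fun (fun t ht => ?_) measurableSet_Ioi
      have : ¬ t ≤ 1 := not_le.mpr ht
      simp [this]
  have h3 : Integrable (fun t : ℝ => if ‖t‖ ≤ 1 then ‖t‖ ^ (a - 1) else 0) volume :=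
    integrable_norm_real.mpr h2
  refine lt_of_le_of_lt (lintegral_mono fun t => ?_) h3.lintegral_lt_top
  unfold f1
  simp only [Real.norm_eq_abs]
  split_ifs
  · exact le_rfl
  · simp

lemma f1_le (a t : ℝ) (ha : a ≤ 1) : ENNReal.ofReal (|t| ^ (a - 1)) ≤ f1 a t + 1 := by
  unfold f1
  split_ifs with h
  · exact le_self_add
  · rw [zero_add, ← ENNReal.ofReal_one]
    apply ENNReal.ofReal_le_ofReal
    exact Real.rpow_le_one_of_one_le_of_nonpos (not_le.mp h).le (by linarith)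

lemma measurable_f1 (a : ℝ) : Measurable (f1 a) := by
  unfold f1
  refine Measurable.ite ?_ ?_ ?_
  · exact measurableSet_le (by fun_prop) (by fun_prop)
  · fun_prop
  · fun_prop

lemma enorm_Phi_le (z : E) : ‖Phi z‖ₑ ≤ ENNReal.ofReal (‖z‖⁻¹) := by
  rw [Real.enorm_eq_ofReal_abs]
  apply ENNReal.ofReal_le_ofReal
  unfold Phi
  rw [abs_neg, mul_inv, abs_mul, abs_of_nonneg (by positivity : (0:ℝ) ≤ (4 * Real.pi)⁻¹),
    abs_of_nonneg (by positivity : (0:ℝ) ≤ ‖z‖⁻¹)]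
  have h1 : (4 * Real.pi)⁻¹ ≤ 1 := by
    apply inv_le_one_of_one_le₀
    have := Real.pi_gt_three
    linarith
  exact mul_le_of_le_one_left (by positivity) h1

lemma enorm_U1_le (x : E) : ‖U1 x‖ₑ ≤ ∫⁻ s in Icc (0:ℝ) 1, ENNReal.ofReal (‖x - s • e0‖⁻¹) :=
  (enorm_integral_le_lintegral_enorm _).trans (lintegral_mono fun _ => enorm_Phi_le _)

/-- Near bound. -/
lemma U1_near {a : ℝ} (ha : 0 < a) (ha1 : a ≤ 1) {x : E} (hx : x 1 ≠ 0) :
    ‖U1 x‖ₑ ≤ ENNReal.ofReal (|x 1| ^ (-a)) * ((∫⁻ t, f1 a t) + 1) := by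
  refine (enorm_U1_le x).trans ?_
  have hpt : ∀ᵐ s ∂(volume : Measure ℝ), ENNReal.ofReal (‖x - s • e0‖⁻¹) ≤
      ENNReal.ofReal (|x 1| ^ (-a)) * (f1 a (x 0 - s) + 1) := by
    filter_upwards [ae_ne_real (x 0)] with s hs
    refine le_trans ?_ (mul_le_mul' le_rfl (f1_le a _ ha1))
    rw [← ENNReal.ofReal_mul (by positivity)]
    apply ENNReal.ofReal_le_ofReal
    have h1 : |x 1| ≤ ‖x - s • e0‖ := by
      have := abs_coord_le (x - s • e0) 1
      simpa [e0] using this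
    have h0 : |x 0 - s| ≤ ‖x - s • e0‖ := by
      have := abs_coord_le (x - s • e0) 0
      simpa [e0] using this
    have hx1 : 0 < |x 1| := abs_pos.mpr hx
    have hx0 : 0 < |x 0 - s| := abs_pos.mpr (sub_ne_zero.mpr (Ne.symm hs))
    set r := ‖x - s • e0‖
    have hr : 0 < r := hx1.trans_le h1
    have h3 : r⁻¹ = r ^ (-a) * r ^ (a - 1) := by
      rw [← Real.rpow_add hr, ← Real.rpow_neg_one]
      congr 1; ring
    rw [h3]
    refine mul_le_mul ?_ ?_ (by positivity) (by positivity)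
    · exact Real.rpow_le_rpow_of_nonpos hx1 h1 (by linarith)
    · exact Real.rpow_le_rpow_of_nonpos hx0 h0 (by linarith)
  calc ∫⁻ s in Icc (0:ℝ) 1, ENNReal.ofReal (‖x - s • e0‖⁻¹)
      ≤ ∫⁻ s in Icc (0:ℝ) 1, ENNReal.ofReal (|x 1| ^ (-a)) * (f1 a (x 0 - s) + 1) :=
        lintegral_mono_ae (ae_restrict_of_ae hpt)
    _ = ENNReal.ofReal (|x 1| ^ (-a)) * ∫⁻ s in Icc (0:ℝ) 1, (f1 a (x 0 - s) + 1) := by
        rw [lintegral_const_mul' _ _ ENNReal.ofReal_ne_top]
    _ ≤ _ := by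
        refine mul_le_mul' le_rfl ?_
        rw [lintegral_add_right _ measurable_const]
        refine add_le_add ?_ ?_
        · refine (setLIntegral_le_lintegral _ _).trans (le_of_eq ?_)
          exact lintegral_sub_left_eq_self (f1 a) (x 0)
        · simp

/-- Far bound. -/
lemma U1_far {x : E} (hx : 2 ≤ ‖x‖) : ‖U1 x‖ₑ ≤ ENNReal.ofReal (2 * ‖x‖⁻¹) := by
  refine (enorm_U1_le x).trans ?_
  have hpt : ∀ s ∈ Icc (0:ℝ) 1, ENNReal.ofReal (‖x - s • e0‖⁻¹) ≤ ENNReal.ofReal (2 * ‖x‖⁻¹) := by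
    intro s hs
    apply ENNReal.ofReal_le_ofReal
    have h1 : ‖x‖ - ‖s • e0‖ ≤ ‖x - s • e0‖ := norm_sub_norm_le _ _
    rw [norm_smul, norm_e0, mul_one, Real.norm_of_nonneg hs.1] at h1
    have h2 : ‖x‖ / 2 ≤ ‖x - s • e0‖ := by linarith [hs.2]
    have h3 : 0 < ‖x‖ := by linarith
    calc ‖x - s • e0‖⁻¹ ≤ (‖x‖ / 2)⁻¹ := inv_anti₀ (by positivity) h2
      _ = 2 * ‖x‖⁻¹ := by rw [inv_div]; ring
  calc ∫⁻ s in Icc (0:ℝ) 1, ENNReal.ofReal (‖x - s • e0‖⁻¹)
      ≤ ∫⁻ s in Icc (0:ℝ) 1, ENNReal.ofReal (2 * ‖x‖⁻¹) := setLIntegral_mono measurable_const hpt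
    _ = _ := by simp

lemma prof_lower {e t : ℝ} (ht : 0 < t) : (max 1 t) ^ (-e) ≤ prof e t := by
  unfold prof
  split_ifs with h
  · rw [max_eq_left h, Real.one_rpow]
    exact Real.one_le_rpow_of_pos_of_le_one_of_nonpos ht h (by norm_num)
  · rw [max_eq_right (not_le.mp h).le]

/-- Product bound. -/
lemma U1_bound {q : ℝ} (hq : 3 < q) : ∃ C : ℝ≥0∞, C ≠ ⊤ ∧ ∀ x : E, x 0 ≠ 0 → x 1 ≠ 0 → x 2 ≠ 0 →
    ‖U1 x‖ₑ ^ q ≤ C * (ENNReal.ofReal (prof (q / 3) ‖x 0‖) * (ENNReal.ofReal (prof (q / 3) ‖x 1‖) *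
      ENNReal.ofReal (prof (q / 3) ‖x 2‖))) := by
  have hq0 : 0 < q := by linarith
  set a : ℝ := 1 / (2 * q) with ha
  have hapos : 0 < a := by positivity
  have ha1 : a ≤ 1 := by
    rw [ha, div_le_one (by positivity)]; linarith
  set D : ℝ≥0∞ := (∫⁻ t, f1 a t) + 1 with hD
  have hDt : D ≠ ⊤ := ENNReal.add_ne_top.mpr ⟨(f1_lt_top hapos).ne, ENNReal.one_ne_top⟩
  set C1 : ℝ≥0∞ := D ^ q * ENNReal.ofReal ((2:ℝ) ^ q) with hC1
  have hC1t : C1 ≠ ⊤ := ENNReal.mul_ne_top (ENNReal.rpow_ne_top_of_nonneg hq0.le hDt) ENNReal.ofReal_ne_top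
  refine ⟨C1 + ENNReal.ofReal ((2:ℝ) ^ q), ENNReal.add_ne_top.mpr ⟨hC1t, ENNReal.ofReal_ne_top⟩,
    fun x h0 h1 h2 => ?_⟩
  have hn0 : 0 < ‖x 0‖ := norm_pos_iff.mpr h0
  have hn1 : 0 < ‖x 1‖ := norm_pos_iff.mpr h1
  have hn2 : 0 < ‖x 2‖ := norm_pos_iff.mpr h2
  have hP : ∀ t : ℝ, 0 < t → 0 ≤ prof (q / 3) t := fun t ht =>
    le_trans (by positivity) (prof_lower ht)
  rw [← ENNReal.ofReal_mul (hP _ hn1), ← ENNReal.ofReal_mul (hP _ hn0)]
  set P := prof (q / 3) ‖x 0‖ * (prof (q / 3) ‖x 1‖ * prof (q / 3) ‖x 2‖) with hPdef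
  by_cases hx : 2 ≤ ‖x‖
  · -- far
    rw [add_mul]
    refine le_trans ?_ le_add_self
    rw [← ENNReal.ofReal_mul (by positivity)]
    calc ‖U1 x‖ₑ ^ q ≤ (ENNReal.ofReal (2 * ‖x‖⁻¹)) ^ q := ENNReal.rpow_le_rpow (U1_far hx) hq0.le
      _ = ENNReal.ofReal ((2 * ‖x‖⁻¹) ^ q) := ENNReal.ofReal_rpow_of_nonneg (by positivity) hq0.le
      _ ≤ _ := by
        apply ENNReal.ofReal_le_ofReal
        rw [Real.mul_rpow (by norm_num) (by positivity)]
        refine mul_le_mul_of_nonneg_left ?_ (by positivity)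
        have hxp : 0 < ‖x‖ := by linarith
        have key : ∀ i : Fin 3, 0 < ‖x i‖ → ‖x‖ ^ (-(q/3)) ≤ prof (q / 3) ‖x i‖ := by
          intro i hi
          refine le_trans ?_ (prof_lower hi)
          refine Real.rpow_le_rpow_of_nonpos (lt_max_of_lt_left one_pos) ?_ (by linarith [hq0])
          exact max_le (by linarith) (abs_coord_le x i)
        have h3 : (‖x‖⁻¹) ^ q = ‖x‖ ^ (-(q/3)) * (‖x‖ ^ (-(q/3)) * ‖x‖ ^ (-(q/3))) := by
          rw [← Real.rpow_add hxp, ← Real.rpow_add hxp, Real.inv_rpow hxp.le, ← Real.rpow_neg hxp.le]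
          congr 1; ring
        rw [h3, hPdef]
        have hb : 0 ≤ ‖x‖ ^ (-(q/3)) := by positivity
        exact mul_le_mul (key 0 hn0) (mul_le_mul (key 1 hn1) (key 2 hn2) hb (hP _ hn1))
          (mul_nonneg hb hb) (hP _ hn0)
  · -- near
    rw [not_le] at hx
    rw [add_mul]
    refine le_trans ?_ le_self_add
    calc ‖U1 x‖ₑ ^ q ≤ (ENNReal.ofReal (|x 1| ^ (-a)) * D) ^ q :=
          ENNReal.rpow_le_rpow (U1_near hapos ha1 h1) hq0.le
      _ = ENNReal.ofReal (|x 1| ^ (-(1/2) : ℝ)) * D ^ q := by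
          rw [ENNReal.mul_rpow_of_nonneg _ _ hq0.le, ENNReal.ofReal_rpow_of_nonneg (by positivity) hq0.le,
            ← Real.rpow_mul (abs_nonneg _)]
          congr 3
          rw [ha]; field_simp
      _ ≤ ENNReal.ofReal ((2:ℝ) ^ q * P) * D ^ q := by
          refine mul_le_mul' (ENNReal.ofReal_le_ofReal ?_) le_rfl
          have key : ∀ i : Fin 3, 0 < ‖x i‖ → (1:ℝ) ≤ 2 ^ (q/3) * prof (q / 3) ‖x i‖ := by
            intro i hi
            have h4 : (2:ℝ) ^ (-(q/3)) ≤ prof (q / 3) ‖x i‖ := by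
              refine le_trans ?_ (prof_lower hi)
              refine Real.rpow_le_rpow_of_nonpos (lt_max_of_lt_left one_pos) ?_ (by linarith [hq0])
              exact max_le (by norm_num) ((abs_coord_le x i).trans hx.le)
            calc (1:ℝ) = 2 ^ (q/3) * 2 ^ (-(q/3)) := by
                  rw [← Real.rpow_add (by norm_num)]; simp
              _ ≤ _ := mul_le_mul_of_nonneg_left h4 (by positivity)
          have key1 : |x 1| ^ (-(1/2) : ℝ) ≤ 2 ^ (q/3) * prof (q / 3) ‖x 1‖ := by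
            by_cases h5 : ‖x 1‖ ≤ 1
            · have h6 : prof (q/3) ‖x 1‖ = |x 1| ^ (-(1/2) : ℝ) := by
                unfold prof
                rw [if_pos h5, Real.norm_eq_abs]
              rw [h6]
              have h7 : (1:ℝ) ≤ 2 ^ (q/3) := Real.one_le_rpow (by norm_num) (by positivity)
              exact le_mul_of_one_le_left (by positivity) h7
            · refine le_trans ?_ (key 1 hn1)
              rw [not_le, Real.norm_eq_abs] at h5
              exact Real.rpow_le_one_of_one_le_of_nonpos h5.le (by norm_num)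
          have h8 : (2:ℝ) ^ q = 2 ^ (q/3) * (2 ^ (q/3) * 2 ^ (q/3)) := by
            rw [← Real.rpow_add (by norm_num), ← Real.rpow_add (by norm_num)]
            congr 1; ring
          have h9 : (2:ℝ) ^ q * P = (2 ^ (q/3) * prof (q / 3) ‖x 0‖) *
              ((2 ^ (q/3) * prof (q / 3) ‖x 1‖) * (2 ^ (q/3) * prof (q / 3) ‖x 2‖)) := by
            rw [h8, hPdef]; ring
          rw [h9]
          calc |x 1| ^ (-(1/2) : ℝ) = 1 * (|x 1| ^ (-(1/2) : ℝ) * 1) := by ring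
            _ ≤ _ := by
              have hA : 0 ≤ |x 1| ^ (-(1/2) : ℝ) := by positivity
              exact mul_le_mul (key 0 hn0) (mul_le_mul key1 (key 2 hn2) zero_le_one
                (hA.trans key1)) (by positivity) (zero_le_one.trans (key 0 hn0))
      _ = _ := by
          rw [ENNReal.ofReal_mul (by positivity), hC1]
          ring

lemma U1_finite {q : ℝ} (hq : 3 < q) : ∫⁻ x, ‖U1 x‖ₑ ^ q < (⊤ : ℝ≥0∞) := by
  obtain ⟨C, hC, hb⟩ := U1_bound hq
  have hm : Measurable (fun t : ℝ => ENNReal.ofReal (prof (q / 3) ‖t‖)) := by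
    unfold prof
    apply Measurable.ennreal_ofReal
    refine Measurable.ite ?_ ?_ ?_
    · exact measurableSet_le (by fun_prop) (by fun_prop)
    · fun_prop
    · fun_prop
  have hI : ∫⁻ t : ℝ, ENNReal.ofReal (prof (q / 3) ‖t‖) < (⊤ : ℝ≥0∞) :=
    (integrable_prof (by linarith)).lintegral_lt_top
  have hnull : ∀ i : Fin 3, ∀ᵐ x ∂(volume : Measure E), x i ≠ 0 := by
    intro i
    have h1 : MeasurePreserving (fun Y : E => (Y : Fin 3 → ℝ)) volume volume :=
      PiLp.volume_preserving_ofLp (Fin 3)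
    have h2 : ∀ᵐ y ∂(volume : Measure (Fin 3 → ℝ)), y i ≠ 0 := by
      have h3 := Measure.pi_hyperplane (fun _ : Fin 3 => (volume : Measure ℝ)) i (0:ℝ)
      have h4 : (volume : Measure (Fin 3 → ℝ)) {y | y i = 0} = 0 := h3
      rw [ae_iff]
      simpa using h4
    exact h1.quasiMeasurePreserving.ae h2
  calc ∫⁻ x, ‖U1 x‖ₑ ^ q
      ≤ ∫⁻ x : E, C * (ENNReal.ofReal (prof (q / 3) ‖x 0‖) * (ENNReal.ofReal (prof (q / 3) ‖x 1‖) *
      ENNReal.ofReal (prof (q / 3) ‖x 2‖))) := by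
        refine lintegral_mono_ae ?_
        filter_upwards [hnull 0, hnull 1, hnull 2] with x h0 h1 h2
        exact hb x h0 h1 h2
    _ = ∫⁻ p : ℝ × ℝ × ℝ, C * (ENNReal.ofReal (prof (q / 3) ‖p.1‖) *
          (ENNReal.ofReal (prof (q / 3) ‖p.2.1‖) * ENNReal.ofReal (prof (q / 3) ‖p.2.2‖))) := by
        rw [← coord_mp.lintegral_comp]
        exact (((hm.comp measurable_fst)).mul (((hm.comp (measurable_fst.comp measurable_snd))).mul
          (hm.comp (measurable_snd.comp measurable_snd)))).const_mul C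
    _ = C * ((∫⁻ t : ℝ, ENNReal.ofReal (prof (q / 3) ‖t‖)) *
          ((∫⁻ t : ℝ, ENNReal.ofReal (prof (q / 3) ‖t‖)) * ∫⁻ t : ℝ, ENNReal.ofReal (prof (q / 3) ‖t‖))) := by
        rw [lintegral_const_mul' _ _ hC]
        congr 1
        have h5 := lintegral_prod_mul (μ := (volume : Measure ℝ)) (ν := (volume : Measure (ℝ × ℝ)))
          (f := fun t => ENNReal.ofReal (prof (q / 3) ‖t‖))
          (g := fun p : ℝ × ℝ => ENNReal.ofReal (prof (q / 3) ‖p.1‖) * ENNReal.ofReal (prof (q / 3) ‖p.2‖))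
          hm.aemeasurable ((hm.comp measurable_fst).mul (hm.comp measurable_snd)).aemeasurable
        have h6 := lintegral_prod_mul (μ := (volume : Measure ℝ)) (ν := (volume : Measure ℝ))
          (f := fun t => ENNReal.ofReal (prof (q / 3) ‖t‖))
          (g := fun t => ENNReal.ofReal (prof (q / 3) ‖t‖)) hm.aemeasurable hm.aemeasurable
        have h7 : (volume : Measure (ℝ × ℝ)) = (volume : Measure ℝ).prod volume := rfl
        have h8 : (volume : Measure (ℝ × ℝ × ℝ)) = (volume : Measure ℝ).prod volume := rfl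
        rw [h8, h5, h7, h6]
    _ < ⊤ := by
        have h9 := ENNReal.mul_lt_top hI (ENNReal.mul_lt_top hI hI)
        exact ENNReal.mul_lt_top (lt_top_iff_ne_top.mpr hC) h9

end Pool.Agent.Lib.MP_fe4d92_an
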